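import Mathlib

/-! Products of a function with values plus or minus one over the vertices of cubes. -/

set_option autoImplicit false
set_option maxHeartbeats 4000000

namespace Pool.Agent.V5helper49.BW

open Finset

/-- the side lengths `1, 1, 2, 4, ...` -/
def cs : ℕ → ℤ
  | 0 => 1
  | (l + 1) => 2 ^ l

lemma cs_zero : cs 0 = 1 := rfl

lemma cs_succ (l : ℕ) : cs (l + 1) = 2 ^ l := rfl

lemma cs_pos (l : ℕ) : 0 < cs l := by
  cases l with
  | zero => rw [cs_zero]; norm_num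
  | succ l => rw [cs_succ]; positivity

lemma pm_sq {t : ℝ} (h : t = 1 ∨ t = -1) : t * t = 1 := by
  rcases h with h | h <;> rw [h] <;> norm_num

lemma pm_mul {s t : ℝ} (hs : s = 1 ∨ s = -1) (ht : t = 1 ∨ t = -1) : s * t = 1 ∨ s * t = -1 := by
  rcases hs with h | h <;> rcases ht with h' | h' <;> rw [h, h'] <;> norm_num

lemma pm_prod {ι : Type*} (A : Finset ι) (g : ι → ℝ) (h : ∀ i ∈ A, g i = 1 ∨ g i = -1) :
    ∏ i ∈ A, g i = 1 ∨ ∏ i ∈ A, g i = -1 := by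
  classical
  induction A using Finset.induction_on with
  | empty => left; simp
  | insert i A hi ih =>
    rw [prod_insert hi]
    exact pm_mul (h i (mem_insert_self _ _)) (ih fun j hj => h j (mem_insert_of_mem hj))

lemma pm_pow {t : ℝ} (h : t = 1 ∨ t = -1) (n : ℕ) : t ^ n = 1 ∨ t ^ n = -1 := by
  induction n with
  | zero => left; simp
  | succ n ih => rw [pow_succ]; exact pm_mul ih h

lemma cube_split (f : ℤ → ℝ) (A : Finset ℕ) (w : ℕ → ℤ) (j : ℕ) (hj : j ∉ A) (y : ℤ) :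
    ∏ S ∈ (insert j A).powerset, f (y + ∑ l ∈ S, w l) =
      (∏ S ∈ A.powerset, f (y + ∑ l ∈ S, w l)) * ∏ S ∈ A.powerset, f (y + w j + ∑ l ∈ S, w l) := by
  rw [prod_powerset_insert hj]
  congr 1
  apply prod_congr rfl
  intro S hS
  rw [sum_insert (fun h => hj (mem_powerset.1 hS h)), add_assoc]

lemma cube_zero (f : ℤ → ℝ) (hf : ∀ m, f m = 1 ∨ f m = -1) (A : Finset ℕ) (w : ℕ → ℤ) (j : ℕ)
    (hj : j ∈ A) (hw : w j = 0) (y : ℤ) : ∏ S ∈ A.powerset, f (y + ∑ l ∈ S, w l) = 1 := by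
  rw [← insert_erase hj, cube_split f _ w j (notMem_erase _ _), hw, add_zero]
  exact pm_sq (pm_prod _ _ fun _ _ => hf _)

lemma cube_dbl (f : ℤ → ℝ) (hf : ∀ m, f m = 1 ∨ f m = -1) (N : ℤ) (m : ℕ) (y : ℤ) :
    ∏ S ∈ (range (m + 1)).powerset, f (y + ∑ l ∈ S, cs l * N) = f y * f (y + 2 ^ m * N) := by
  induction m generalizing y with
  | zero =>
    have h1 : range (0 + 1) = insert 0 (∅ : Finset ℕ) := rfl
    rw [h1, cube_split f ∅ (fun l => cs l * N) 0 (by simp)]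
    simp [cs_zero]
  | succ m ih =>
    rw [range_add_one, cube_split f _ _ _ (by simp), ih, ih, cs_succ]
    have h1 : y + 2 ^ m * N + 2 ^ m * N = y + 2 ^ (m + 1) * N := by ring
    rw [h1]
    calc _ = f y * f (y + 2 ^ (m + 1) * N) * (f (y + 2 ^ m * N) * f (y + 2 ^ m * N)) := by ring
      _ = _ := by rw [pm_sq (hf _), mul_one]

/-- the identity -/
theorem cube_id (m : ℕ) (g₀ : ℤ → ℝ) (hg₀ : ∀ y, g₀ y = 1 ∨ g₀ y = -1) (g : ℕ → ℤ → ℝ)
    (hg : ∀ j y, g j y = 1 ∨ g j y = -1) (α₀ β₀ : ℤ) (α β ν δ : ℕ → ℤ) (N : ℤ)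
    (h0 : ∀ j ∈ range (m + 1), α j * ν j + β j * δ j = 0)
    (h1 : ∀ j ∈ range (m + 1), α₀ * ν j + β₀ * δ j = cs j * N) (n a : ℤ) :
    ∏ S ∈ (range (m + 1)).powerset, (g₀ (α₀ * (n + ∑ l ∈ S, ν l) + β₀ * (a + ∑ l ∈ S, δ l)) *
      ∏ j ∈ range (m + 1), g j (α j * (n + ∑ l ∈ S, ν l) + β j * (a + ∑ l ∈ S, δ l))) =
    g₀ (α₀ * n + β₀ * a) * g₀ (α₀ * n + β₀ * a + 2 ^ m * N) := by
  have hr : ∀ (α' β' : ℤ) (S : Finset ℕ), α' * (n + ∑ l ∈ S, ν l) + β' * (a + ∑ l ∈ S, δ l) =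
      α' * n + β' * a + ∑ l ∈ S, (α' * ν l + β' * δ l) := by
    intro α' β' S
    rw [sum_add_distrib, ← mul_sum, ← mul_sum]
    ring
  rw [prod_mul_distrib, prod_comm]
  have h3 : ∀ j ∈ range (m + 1), ∏ S ∈ (range (m + 1)).powerset,
      g j (α j * (n + ∑ l ∈ S, ν l) + β j * (a + ∑ l ∈ S, δ l)) = 1 := by
    intro j hj
    rw [prod_congr rfl fun S _ => by rw [hr (α j) (β j) S]]
    exact cube_zero (g j) (hg j) _ (fun l => α j * ν l + β j * δ l) j hj (h0 j hj) _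
  rw [prod_congr rfl h3, prod_const_one, mul_one, ← cube_dbl g₀ hg₀ N m]
  apply prod_congr rfl
  intro S hS
  rw [hr]
  congr 2
  apply sum_congr rfl
  intro l hl
  exact h1 l (mem_powerset.1 hS hl)

/-- a shift changes a count by at most its size -/
lemma shift_card (p : ℤ → Prop) [DecidablePred p] (x : ℕ) (t : ℤ) :
    ((Icc (1 : ℤ) x).filter (fun n => p (n + t))).card ≤ ((Icc (1 : ℤ) x).filter p).card + t.natAbs := by
  classical
  have h1 : ((Icc (1 : ℤ) x).filter (fun n => p (n + t))).card =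
      (((Icc (1 : ℤ) x).filter (fun n => p (n + t))).image (fun n => n + t)).card := by
    rw [card_image_of_injective _ (add_left_injective t)]
  have h2 : ((Icc (1 : ℤ) x).filter (fun n => p (n + t))).image (fun n => n + t) ⊆
      (Icc (1 : ℤ) x).filter p ∪ (if 0 ≤ t then Ioc (x : ℤ) (x + t) else Ico (1 + t) 1) := by
    intro n hn
    rw [mem_image] at hn
    obtain ⟨n', hn', rfl⟩ := hn
    rw [mem_filter, mem_Icc] at hn'
    rw [mem_union, mem_filter, mem_Icc]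
    by_cases h : 1 ≤ n' + t ∧ n' + t ≤ x
    · exact Or.inl ⟨h, hn'.2⟩
    · right
      split_ifs with h0
      · rw [mem_Ioc]
        omega
      · rw [mem_Ico]
        omega
  rw [h1]
  refine (card_le_card h2).trans ((card_union_le _ _).trans ?_)
  gcongr
  split_ifs with h0
  · rw [Int.card_Ioc]
    omega
  · rw [Int.card_Ico]
    omega

/-- the lower bound for the products from the relations -/
theorem lower (m : ℕ) (g₀ : ℤ → ℝ) (hg₀ : ∀ y, g₀ y = 1 ∨ g₀ y = -1) (g : ℕ → ℤ → ℝ)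
    (hg : ∀ j y, g j y = 1 ∨ g j y = -1) (α₀ β₀ : ℤ) (α β ν δ : ℕ → ℤ) (N : ℤ)
    (h0 : ∀ j ∈ range (m + 1), α j * ν j + β j * δ j = 0)
    (h1 : ∀ j ∈ range (m + 1), α₀ * ν j + β₀ * δ j = cs j * N) (a : ℤ) (x : ℕ)
    (W : ℤ → Prop) [DecidablePred W] (hW : ∀ n, ∀ j ∈ range (m + 1), (W (n + ν j) ↔ W n))
    (σ : ℝ) (hσ : σ = 1 ∨ σ = -1) (B : ℝ) (C : ℕ)
    (hC : ∀ S ∈ (range (m + 1)).powerset, (∑ l ∈ S, ν l).natAbs ≤ C)
    (hB : ∀ S ∈ (range (m + 1)).powerset, S ≠ ∅ →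
      (((Icc (1 : ℤ) x).filter (fun n => W n ∧
        σ * (g₀ (α₀ * n + β₀ * (a + ∑ l ∈ S, δ l)) *
          ∏ j ∈ range (m + 1), g j (α j * n + β j * (a + ∑ l ∈ S, δ l))) ≠ 1)).card : ℝ) ≤ B) :
    (((Icc (1 : ℤ) x).filter W).card : ℝ) - 2 * ((2 ^ (m + 1) - 1) * (B + C)) ≤
      |∑ n ∈ Icc (1 : ℤ) x, ((if W n then (1 : ℝ) else 0) *
        ∏ j ∈ range (m + 1), g j (α j * n + β j * a)) * g₀ (α₀ * n + β₀ * a + 2 ^ m * N)| := by
  classical
  obtain ⟨P, hP⟩ : ∃ P : Finset (Finset ℕ), P = (range (m + 1)).powerset.erase ∅ := ⟨_, rfl⟩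
  have hPc : P.card = 2 ^ (m + 1) - 1 := by
    rw [hP, card_erase_of_mem (empty_mem_powerset _), card_powerset, card_range]
  have hPr : (P.card : ℝ) = 2 ^ (m + 1) - 1 := by
    rw [hPc, Nat.cast_sub Nat.one_le_two_pow]
    push_cast
    rfl
  obtain ⟨Rr, hRr⟩ : ∃ Rr : Finset ℕ → ℤ → ℝ, Rr = fun S n =>
    g₀ (α₀ * n + β₀ * (a + ∑ l ∈ S, δ l)) *
      ∏ j ∈ range (m + 1), g j (α j * n + β j * (a + ∑ l ∈ S, δ l)) := ⟨_, rfl⟩
  obtain ⟨G, hG⟩ : ∃ G : ℤ → ℝ, G = fun n => ∏ j ∈ range (m + 1), g j (α j * n + β j * a) := ⟨_, rfl⟩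
  have hRpm : ∀ S n, Rr S n = 1 ∨ Rr S n = -1 := fun S n => by
    rw [hRr]
    exact pm_mul (hg₀ _) (pm_prod _ _ fun _ _ => hg _ _)
  have hGpm : ∀ n, G n = 1 ∨ G n = -1 := fun n => by rw [hG]; exact pm_prod _ _ fun _ _ => hg _ _
  have hB' : ∀ S ∈ (range (m + 1)).powerset, S ≠ ∅ →
      (((Icc (1 : ℤ) x).filter (fun n => W n ∧ σ * Rr S n ≠ 1)).card : ℝ) ≤ B := by
    rw [hRr]
    exact hB
  -- the identity
  have hid : ∀ n, ∏ S ∈ P, Rr S (n + ∑ l ∈ S, ν l) = G n * g₀ (α₀ * n + β₀ * a + 2 ^ m * N) := by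
    intro n
    have h2 := cube_id m g₀ hg₀ g hg α₀ β₀ α β ν δ N h0 h1 n a
    rw [← mul_prod_erase _ _ (empty_mem_powerset (range (m + 1))), ← hP] at h2
    simp only [sum_empty, add_zero] at h2
    have h3 : ∏ S ∈ P, Rr S (n + ∑ l ∈ S, ν l) = ∏ S ∈ P,
        (g₀ (α₀ * (n + ∑ l ∈ S, ν l) + β₀ * (a + ∑ l ∈ S, δ l)) *
          ∏ j ∈ range (m + 1), g j (α j * (n + ∑ l ∈ S, ν l) + β j * (a + ∑ l ∈ S, δ l))) := by
      rw [hRr]
    have hGn : G n = ∏ j ∈ range (m + 1), g j (α j * n + β j * a) := by rw [hG]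
    rw [← h3, ← hGn] at h2
    have h4 : G n * G n = 1 := pm_sq (hGpm n)
    have h5 : g₀ (α₀ * n + β₀ * a) * g₀ (α₀ * n + β₀ * a) = 1 := pm_sq (hg₀ _)
    calc ∏ S ∈ P, Rr S (n + ∑ l ∈ S, ν l) =
          (G n * G n) * (g₀ (α₀ * n + β₀ * a) * g₀ (α₀ * n + β₀ * a)) *
          ∏ S ∈ P, Rr S (n + ∑ l ∈ S, ν l) := by rw [h4, h5]; ring
      _ = G n * g₀ (α₀ * n + β₀ * a) * (g₀ (α₀ * n + β₀ * a) * G n *
          ∏ S ∈ P, Rr S (n + ∑ l ∈ S, ν l)) := by ring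
      _ = G n * g₀ (α₀ * n + β₀ * a) * (g₀ (α₀ * n + β₀ * a) *
          g₀ (α₀ * n + β₀ * a + 2 ^ m * N)) := by rw [h2]
      _ = G n * (g₀ (α₀ * n + β₀ * a) * g₀ (α₀ * n + β₀ * a)) *
          g₀ (α₀ * n + β₀ * a + 2 ^ m * N) := by ring
      _ = _ := by rw [h5, mul_one]
  have hWS : ∀ S ∈ (range (m + 1)).powerset, ∀ n, (W (n + ∑ l ∈ S, ν l) ↔ W n) := by
    intro S
    induction S using Finset.induction_on with
    | empty => intro _ n; rw [sum_empty, add_zero]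
    | insert j S hj ih =>
      intro hS n
      rw [mem_powerset, insert_subset_iff] at hS
      rw [sum_insert hj, ← add_assoc, ih (mem_powerset.2 hS.2), hW n j hS.1]
  -- pointwise
  have hpt : ∀ n, (if W n then (1 : ℝ) else 0) - 2 * ∑ S ∈ P,
      (if W (n + ∑ l ∈ S, ν l) ∧ σ * Rr S (n + ∑ l ∈ S, ν l) ≠ 1 then (1 : ℝ) else 0) ≤
      σ ^ P.card * ((if W n then (1 : ℝ) else 0) * G n * g₀ (α₀ * n + β₀ * a + 2 ^ m * N)) := by
    intro n
    by_cases hWn : W n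
    · rw [if_pos hWn, one_mul]
      have h2 : σ ^ P.card * (G n * g₀ (α₀ * n + β₀ * a + 2 ^ m * N)) =
          ∏ S ∈ P, (σ * Rr S (n + ∑ l ∈ S, ν l)) := by
        rw [← hid, prod_mul_distrib, prod_const]
      rw [h2]
      by_cases hall : ∀ S ∈ P, σ * Rr S (n + ∑ l ∈ S, ν l) = 1
      · rw [prod_congr rfl hall, prod_const_one]
        have h3 : 0 ≤ ∑ S ∈ P, (if W (n + ∑ l ∈ S, ν l) ∧ σ * Rr S (n + ∑ l ∈ S, ν l) ≠ 1
            then (1 : ℝ) else 0) := sum_nonneg fun _ _ => by split_ifs <;> norm_num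
        linarith
      · simp only [not_forall] at hall
        obtain ⟨S₀, hS₀, hne⟩ := hall
        have h3 : (1 : ℝ) ≤ ∑ S ∈ P, (if W (n + ∑ l ∈ S, ν l) ∧ σ * Rr S (n + ∑ l ∈ S, ν l) ≠ 1
            then (1 : ℝ) else 0) := by
          have hS₀' : S₀ ∈ (range (m + 1)).powerset := by
            rw [hP] at hS₀
            exact mem_of_mem_erase hS₀
          have h4 : (if W (n + ∑ l ∈ S₀, ν l) ∧ σ * Rr S₀ (n + ∑ l ∈ S₀, ν l) ≠ 1
              then (1 : ℝ) else 0) = 1 := by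
            rw [if_pos ⟨(hWS S₀ hS₀' n).2 hWn, hne⟩]
          refine h4.symm.le.trans ?_
          exact single_le_sum (f := fun S => if W (n + ∑ l ∈ S, ν l) ∧ σ * Rr S (n + ∑ l ∈ S, ν l) ≠ 1
            then (1 : ℝ) else 0) (fun _ _ => by split_ifs <;> norm_num) hS₀
        have h5 : -1 ≤ ∏ S ∈ P, (σ * Rr S (n + ∑ l ∈ S, ν l)) := by
          rcases pm_prod P (fun S => σ * Rr S (n + ∑ l ∈ S, ν l)) (fun S _ => pm_mul hσ (hRpm _ _)) with h | h
          · rw [h]; norm_num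
          · rw [h]
        linarith
    · rw [if_neg hWn]
      have h3 : 0 ≤ ∑ S ∈ P, (if W (n + ∑ l ∈ S, ν l) ∧ σ * Rr S (n + ∑ l ∈ S, ν l) ≠ 1
          then (1 : ℝ) else 0) := sum_nonneg fun _ _ => by split_ifs <;> norm_num
      rw [zero_mul, zero_mul, mul_zero]
      linarith
  -- sum over n
  have hsum := sum_le_sum fun n (_ : n ∈ Icc (1 : ℤ) x) => hpt n
  rw [sum_sub_distrib, ← mul_sum, ← mul_sum, sum_comm] at hsum
  have hv : ∑ n ∈ Icc (1 : ℤ) x, (if W n then (1 : ℝ) else 0) = (((Icc (1 : ℤ) x).filter W).card : ℝ) := by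
    rw [← sum_filter, sum_const, nsmul_eq_mul, mul_one]
  rw [hv] at hsum
  have hS : ∀ S ∈ P, ∑ n ∈ Icc (1 : ℤ) x, (if W (n + ∑ l ∈ S, ν l) ∧ σ * Rr S (n + ∑ l ∈ S, ν l) ≠ 1
      then (1 : ℝ) else 0) ≤ B + C := by
    intro S hS
    rw [hP] at hS
    have hS' := mem_erase.1 hS
    rw [← sum_filter, sum_const, nsmul_eq_mul, mul_one]
    have h2 := shift_card (fun n => W n ∧ σ * Rr S n ≠ 1) x (∑ l ∈ S, ν l)
    have h3 : ((((Icc (1 : ℤ) x).filter (fun n => W (n + ∑ l ∈ S, ν l) ∧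
        σ * Rr S (n + ∑ l ∈ S, ν l) ≠ 1)).card : ℕ) : ℝ) ≤
        ((((Icc (1 : ℤ) x).filter (fun n => W n ∧ σ * Rr S n ≠ 1)).card + (∑ l ∈ S, ν l).natAbs : ℕ) : ℝ) := by
      exact_mod_cast h2
    refine h3.trans ?_
    rw [Nat.cast_add]
    exact add_le_add (hB' S hS'.2 hS'.1) (by exact_mod_cast hC S hS'.2)
  have hS2 := sum_le_sum hS
  rw [sum_const, nsmul_eq_mul, hPr] at hS2
  have hfin : ∀ t : ℝ, σ ^ P.card * t ≤ |t| := by
    intro t
    rcases pm_pow hσ P.card with h | h <;> rw [h]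
    · rw [one_mul]; exact le_abs_self t
    · rw [neg_one_mul]; exact neg_le_abs t
  have h6 := hfin (∑ n ∈ Icc (1 : ℤ) x, (if W n then (1 : ℝ) else 0) * G n *
    g₀ (α₀ * n + β₀ * a + 2 ^ m * N))
  have h7 : ∑ n ∈ Icc (1 : ℤ) x, ((if W n then (1 : ℝ) else 0) *
        ∏ j ∈ range (m + 1), g j (α j * n + β j * a)) * g₀ (α₀ * n + β₀ * a + 2 ^ m * N) =
      ∑ n ∈ Icc (1 : ℤ) x, (if W n then (1 : ℝ) else 0) * G n * g₀ (α₀ * n + β₀ * a + 2 ^ m * N) := by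
    rw [hG]
  rw [h7]
  linarith

/-- the directions of the shifts -/
lemma dirs (m : ℕ) (α₀ β₀ : ℤ) (α β : ℕ → ℤ) (hnp : ∀ j ∈ range (m + 1), β₀ * α j - α₀ * β j ≠ 0) :
    ∃ (p q : ℕ → ℤ) (Λ : ℤ), Λ ≠ 0 ∧ (∀ j ∈ range (m + 1), α j * p j + β j * q j = 0) ∧
      ∀ j ∈ range (m + 1), α₀ * p j + β₀ * q j = cs j * Λ := by
  refine ⟨fun j => -(cs j * (∏ l ∈ (range (m + 1)).erase j, (β₀ * α l - α₀ * β l)) * β j),
    fun j => cs j * (∏ l ∈ (range (m + 1)).erase j, (β₀ * α l - α₀ * β l)) * α j,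
    ∏ l ∈ range (m + 1), (β₀ * α l - α₀ * β l), prod_ne_zero_iff.2 hnp, ?_, ?_⟩
  · intro j _
    ring
  · intro j hj
    rw [← prod_erase_mul _ _ hj]
    ring

lemma natAbs_sum (A S : Finset ℕ) (hS : S ∈ A.powerset) (g : ℕ → ℤ) (B : ℕ → ℕ)
    (h : ∀ l ∈ A, (g l).natAbs ≤ B l) : (∑ l ∈ S, g l).natAbs ≤ ∑ l ∈ A, B l := by
  rw [mem_powerset] at hS
  have h1 : |∑ l ∈ S, g l| ≤ ∑ l ∈ S, |g l| := abs_sum_le_sum_abs _ _
  have h2 : ∑ l ∈ S, |g l| ≤ ∑ l ∈ S, (B l : ℤ) := sum_le_sum fun l hl => by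
    have := h l (hS hl)
    rw [Int.abs_eq_natAbs]
    exact_mod_cast this
  have h3 : ∑ l ∈ S, (B l : ℤ) ≤ ∑ l ∈ A, (B l : ℤ) :=
    sum_le_sum_of_subset_of_nonneg hS fun _ _ _ => Int.natCast_nonneg _
  have h4 : ((∑ l ∈ A, B l : ℕ) : ℤ) = ∑ l ∈ A, (B l : ℤ) := by push_cast; rfl
  have h5 : ((∑ l ∈ S, g l).natAbs : ℤ) ≤ ((∑ l ∈ A, B l : ℕ) : ℤ) := by
    rw [h4, ← Int.abs_eq_natAbs]
    exact h1.trans (h2.trans h3)
  exact_mod_cast h5

lemma count_id (W : ℤ → Prop) [DecidablePred W] (Rr : ℤ → ℝ) (hR : ∀ n, Rr n = 1 ∨ Rr n = -1) (x : ℕ)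
    [DecidablePred fun n => W n ∧ Rr n ≠ 1] :
    ∑ n ∈ Icc (1 : ℤ) x, (if W n then (1 : ℝ) else 0) * Rr n =
      (((Icc (1 : ℤ) x).filter W).card : ℝ) - 2 * (((Icc (1 : ℤ) x).filter (fun n => W n ∧ Rr n ≠ 1)).card : ℝ) := by
  have h1 : (((Icc (1 : ℤ) x).filter W).card : ℝ) = ∑ n ∈ Icc (1 : ℤ) x, (if W n then (1 : ℝ) else 0) := by
    rw [← sum_filter, sum_const, nsmul_eq_mul, mul_one]
  have h2 : (((Icc (1 : ℤ) x).filter (fun n => W n ∧ Rr n ≠ 1)).card : ℝ) =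
      ∑ n ∈ Icc (1 : ℤ) x, (if W n ∧ Rr n ≠ 1 then (1 : ℝ) else 0) := by
    rw [← sum_filter, sum_const, nsmul_eq_mul, mul_one]
  rw [h1, h2, mul_sum, ← sum_sub_distrib]
  apply sum_congr rfl
  intro n _
  by_cases hW : W n
  · rcases hR n with h | h
    · rw [if_pos hW, if_neg (fun h3 => h3.2 h), h]
      norm_num
    · rw [if_pos hW, if_pos ⟨hW, by rw [h]; norm_num⟩, h]
      norm_num
  · rw [if_neg hW, if_neg (fun h3 => hW h3.1)]
    norm_num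

/-- enumeration of a finite set -/
lemma enum_exists {k s : ℕ} (I : Finset (Fin k)) (hI : I.card = s) (hs : 0 < s) :
    ∃ r : ℕ → Fin k, Set.InjOn r (range s) ∧ (range s).image r = I := by
  classical
  refine ⟨fun j => if h : j < s then I.orderEmbOfFin hI ⟨j, h⟩ else I.orderEmbOfFin hI ⟨0, hs⟩, ?_, ?_⟩
  · intro p hp q hq h
    rw [Finset.mem_coe, mem_range] at hp hq
    simp only [dif_pos hp, dif_pos hq] at h
    have := (I.orderEmbOfFin hI).injective h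
    simpa using this
  · ext i
    rw [mem_image]
    constructor
    · rintro ⟨j, hj, rfl⟩
      rw [mem_range] at hj
      simp only [dif_pos hj]
      exact I.orderEmbOfFin_mem hI _
    · intro hi
      have : i ∈ Set.range (I.orderEmbOfFin hI) := by
        rw [Finset.range_orderEmbOfFin]
        exact hi
      obtain ⟨j, hj⟩ := this
      refine ⟨j, mem_range.2 j.2, ?_⟩
      simp only [dif_pos j.2]
      exact hj

/-- shifts of an interval -/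
lemma conn_card (I : Finset ℤ) (hI : ∀ u ∈ I, ∀ v ∈ I, ∀ c, u ≤ c → c ≤ v → c ∈ I) (t : ℤ) :
    (I.filter (fun u => u + t ∉ I)).card ≤ t.natAbs := by
  classical
  rcases I.eq_empty_or_nonempty with h | h
  · subst h
    simp
  · rcases le_total 0 t with ht | ht
    · have h1 : I.filter (fun u => u + t ∉ I) ⊆ Ioc (I.max' h - t) (I.max' h) := by
        intro u hu
        rw [mem_filter] at hu
        rw [mem_Ioc]
        refine ⟨?_, I.le_max' u hu.1⟩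
        by_contra hcon
        exact hu.2 (hI u hu.1 _ (I.max'_mem h) _ (by omega) (by omega))
      refine (card_le_card h1).trans ?_
      rw [Int.card_Ioc]
      omega
    · have h1 : I.filter (fun u => u + t ∉ I) ⊆ Ico (I.min' h) (I.min' h - t) := by
        intro u hu
        rw [mem_filter] at hu
        rw [mem_Ico]
        refine ⟨I.min'_le u hu.1, ?_⟩
        by_contra hcon
        exact hu.2 (hI _ (I.min'_mem h) u hu.1 _ (by omega) (by omega))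
      refine (card_le_card h1).trans ?_
      rw [Int.card_Ico]
      omega

end Pool.Agent.V5helper49.BW
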