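import Pool.Agent.H602R3.DHJ.Main
import Pool.Agent.V5helper49.BW.Cube

/-! Patterns in dense sets of integers, with dilation by all small integers, from the density
Hales-Jewett theorem. -/

set_option autoImplicit false
set_option maxHeartbeats 4000000

namespace Pool.Agent.V5helper49.BW

open Finset
open Pool.Agent.H602R3.DHJ (ap Pr dn LFr dhj D_equiv)

/-- lines in dense sets of words over a finite alphabet -/
theorem line_dense (A : Type) [Fintype A] [DecidableEq A] [Nonempty A] (δ : ℝ) (hδ : 0 < δ) :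
    ∃ N : ℕ, ∀ S : Finset (Fin N → A), δ * Fintype.card (Fin N → A) ≤ S.card →
      ∃ V : Fin N → A ⊕ Unit, Pr V ∧ ∀ a, ap V (fun _ => a) ∈ S := by
  classical
  obtain ⟨k, hk⟩ : ∃ k, Fintype.card A = k + 1 :=
    ⟨Fintype.card A - 1, by have : 0 < Fintype.card A := Fintype.card_pos; omega⟩
  have hD := D_equiv (Fintype.equivFinOfCardEq hk).symm (dhj k)
  obtain ⟨N, hN⟩ := hD δ hδ
  refine ⟨N, fun S hS => ?_⟩
  by_contra hcon
  push Not at hcon
  have h1 : dn (S : Set (Fin N → A)) < δ := hN _ (by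
    intro V hV
    obtain ⟨a, ha⟩ := hcon V hV
    exact ⟨a, by simpa using ha⟩)
  have h2 : dn (S : Set (Fin N → A)) = (S.card : ℝ) / Fintype.card (Fin N → A) := by
    unfold Pool.Agent.H602R3.DHJ.dn Pool.Agent.H602R3.DHJ.av
    congr 1
    rw [← sum_subset (subset_univ S)]
    · rw [sum_congr rfl fun x hx => Set.indicator_of_mem (by simpa using hx) _]
      simp
    · intro x _ hx
      rw [Set.indicator_of_notMem]
      simpa using hx
  have hpos : (0 : ℝ) < Fintype.card (Fin N → A) := by exact_mod_cast Fintype.card_pos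
  rw [h2, div_lt_iff₀ hpos] at h1
  linarith

/-- sums along a line -/
theorem sum_line {A : Type} [Nonempty A] {N : ℕ} (V : Fin N → A ⊕ Unit) (hV : Pr V) (φ : A → ℤ) (C : ℕ)
    (hC : ∀ a, (φ a).natAbs ≤ C) :
    ∃ s τ : ℤ, |s| ≤ (N * C : ℕ) ∧ 1 ≤ τ ∧ τ ≤ N ∧ ∀ a, ∑ i, φ (ap V (fun _ => a) i) = s + τ * φ a := by
  classical
  obtain ⟨a₀⟩ : Nonempty A := inferInstance
  refine ⟨∑ i ∈ univ.filter (fun i => ¬ V i = Sum.inr ()), φ (ap V (fun _ => a₀) i),
    ((univ.filter (fun i => V i = Sum.inr ())).card : ℤ), ?_, ?_, ?_, fun a => ?_⟩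
  · refine (abs_sum_le_sum_abs _ _).trans ?_
    calc ∑ i ∈ univ.filter (fun i => ¬ V i = Sum.inr ()), |φ (ap V (fun _ => a₀) i)| ≤
          ∑ i ∈ univ.filter (fun i => ¬ V i = Sum.inr ()), (C : ℤ) := by
          apply sum_le_sum
          intro i _
          rw [Int.abs_eq_natAbs]
          exact_mod_cast hC _
      _ = ((univ.filter (fun i => ¬ V i = Sum.inr ())).card : ℤ) * C := by
          rw [sum_const, nsmul_eq_mul]
      _ ≤ (N : ℤ) * C := by
          apply mul_le_mul_of_nonneg_right _ (Int.natCast_nonneg _)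
          have h1 : (univ.filter (fun i => ¬ V i = Sum.inr ())).card ≤ (univ : Finset (Fin N)).card :=
            card_le_card (filter_subset _ _)
          rw [card_univ, Fintype.card_fin] at h1
          exact_mod_cast h1
      _ = _ := by push_cast; ring
  · obtain ⟨i, hi⟩ := hV ()
    have h1 : 0 < (univ.filter (fun i => V i = Sum.inr ())).card :=
      card_pos.2 ⟨i, mem_filter.2 ⟨mem_univ _, hi⟩⟩
    exact_mod_cast h1
  · have h1 : (univ.filter (fun i => V i = Sum.inr ())).card ≤ (univ : Finset (Fin N)).card :=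
      card_le_card (filter_subset _ _)
    rw [card_univ, Fintype.card_fin] at h1
    exact_mod_cast h1
  · rw [← sum_filter_add_sum_filter_not univ (fun i => V i = Sum.inr ()), add_comm]
    congr 1
    · refine sum_congr rfl fun i hi => ?_
      have h := (mem_filter.1 hi).2
      congr 1
      unfold Pool.Agent.H602R3.DHJ.ap
      rcases hVi : V i with b | u
      · rfl
      · exact absurd (by rw [hVi]) h
    · have h1 : ∀ i ∈ univ.filter (fun i => V i = Sum.inr ()), φ (ap V (fun _ => a) i) = φ a := by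
        intro i hi
        have h := (mem_filter.1 hi).2
        congr 1
        unfold Pool.Agent.H602R3.DHJ.ap
        rw [h]
        rfl
      rw [sum_congr rfl h1, sum_const, nsmul_eq_mul]

lemma sum_word {A : Type} {N : ℕ} (φ : A → ℤ) (C : ℕ) (hC : ∀ a, (φ a).natAbs ≤ C) (w : Fin N → A) :
    (∑ i, φ (w i)).natAbs ≤ N * C := by
  have h1 : |∑ i, φ (w i)| ≤ ((N * C : ℕ) : ℤ) := by
    refine (abs_sum_le_sum_abs _ _).trans ?_
    calc ∑ i, |φ (w i)| ≤ ∑ _i : Fin N, (C : ℤ) := by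
          apply sum_le_sum
          intro i _
          rw [Int.abs_eq_natAbs]
          exact_mod_cast hC _
      _ = _ := by
          rw [sum_const, card_univ, Fintype.card_fin, nsmul_eq_mul]
          push_cast
          ring
  rw [Int.abs_eq_natAbs] at h1
  exact_mod_cast h1

/-- translates of a subset of an interval -/
lemma trans_card (D : ℕ) (B : Finset ℤ) (hB : B ⊆ Icc (1 : ℤ) D) (t : ℤ) :
    B.card ≤ ((Icc (1 : ℤ) D).filter (fun s => s + t ∈ B)).card + t.natAbs := by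
  classical
  have h1 : B ⊆ ((Icc (1 : ℤ) D).filter (fun s => s + t ∈ B)).image (fun s => s + t) ∪
      (Icc (1 : ℤ) D).filter (fun u => u + (-t) ∉ Icc (1 : ℤ) D) := by
    intro d hd
    rw [mem_union, mem_image]
    by_cases h : d + (-t) ∈ Icc (1 : ℤ) D
    · left
      exact ⟨d + (-t), mem_filter.2 ⟨h, by rw [neg_add_cancel_right]; exact hd⟩, by ring⟩
    · right
      exact mem_filter.2 ⟨hB hd, h⟩
  refine (card_le_card h1).trans ((card_union_le _ _).trans (Nat.add_le_add card_image_le ?_))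
  have h2 := conn_card (Icc (1 : ℤ) D) (fun u hu v hv c h1 h2 => by
    rw [mem_Icc] at hu hv ⊢
    omega) (-t)
  rwa [Int.natAbs_neg] at h2

/-- Many translates contain a pattern, for every dilation -/
theorem many (A : Type) [Fintype A] [DecidableEq A] [Nonempty A] (φ : A → ℤ) (δ : ℝ) (hδ : 0 < δ) :
    ∃ N C : ℕ, ∀ U : ℕ, ∃ D₀ : ℕ, ∀ D : ℕ, D₀ ≤ D → ∀ B : Finset ℤ, B ⊆ Icc (1 : ℤ) D →
      δ * D ≤ B.card → ∀ l ∈ Icc (1 : ℤ) U, ∃ G : Finset ℤ, G ⊆ Icc (1 : ℤ) D ∧ δ / 4 * D ≤ G.card ∧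
        ∀ s ∈ G, ∃ b τ : ℤ, |b| ≤ C ∧ 1 ≤ τ ∧ τ ≤ N ∧ ∀ a, s + l * (b + τ * φ a) ∈ B := by
  classical
  obtain ⟨N, hN⟩ := line_dense A (δ / 2) (by positivity)
  obtain ⟨C, hC⟩ : ∃ C : ℕ, ∀ a, (φ a).natAbs ≤ C :=
    ⟨∑ a, (φ a).natAbs, fun a => single_le_sum (f := fun a => (φ a).natAbs) (fun _ _ => Nat.zero_le _)
      (mem_univ a)⟩
  refine ⟨N, N * C, fun U => ?_⟩
  obtain ⟨D₀, hD₀⟩ := exists_nat_ge (4 * ((U * (N * C) : ℕ) : ℝ) / δ)
  refine ⟨D₀, fun D hD B hB hBc l hl => ?_⟩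
  rw [mem_Icc] at hl
  have hDR : 4 * ((U * (N * C) : ℕ) : ℝ) ≤ D * δ := by
    have : 4 * ((U * (N * C) : ℕ) : ℝ) / δ ≤ D := hD₀.trans (by exact_mod_cast hD)
    rwa [div_le_iff₀ hδ] at this
  obtain ⟨T, hT⟩ : ∃ T : ℕ, T = Fintype.card (Fin N → A) := ⟨_, rfl⟩
  have hT0 : 0 < T := by rw [hT]; exact Fintype.card_pos
  have hTR : (0 : ℝ) < T := by exact_mod_cast hT0
  obtain ⟨cw, hcw⟩ : ∃ cw : ℤ → Finset (Fin N → A), cw = fun s =>
    univ.filter (fun w => s + l * ∑ i, φ (w i) ∈ B) := ⟨_, rfl⟩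
  obtain ⟨G, hG⟩ : ∃ G : Finset ℤ, G = (Icc (1 : ℤ) D).filter (fun s => δ / 2 * T ≤ (cw s).card) := ⟨_, rfl⟩
  refine ⟨G, by rw [hG]; exact filter_subset _ _, ?_, ?_⟩
  · -- double counting
    have h1 : ∑ s ∈ Icc (1 : ℤ) D, (cw s).card =
        ∑ w : Fin N → A, ((Icc (1 : ℤ) D).filter (fun s => s + l * ∑ i, φ (w i) ∈ B)).card := by
      rw [hcw]
      simp only [card_filter]
      exact sum_comm
    have h2 : ∀ w : Fin N → A, B.card ≤
        ((Icc (1 : ℤ) D).filter (fun s => s + l * ∑ i, φ (w i) ∈ B)).card + U * (N * C) := by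
      intro w
      refine (trans_card D B hB (l * ∑ i, φ (w i))).trans (Nat.add_le_add_left ?_ _)
      rw [Int.natAbs_mul]
      exact Nat.mul_le_mul (by omega) (sum_word φ C hC w)
    have h3 : T * B.card ≤ ∑ s ∈ Icc (1 : ℤ) D, (cw s).card + T * (U * (N * C)) := by
      rw [h1]
      have h4 := sum_le_sum fun w (_ : w ∈ (univ : Finset (Fin N → A))) => h2 w
      rw [sum_const, card_univ, sum_add_distrib, sum_const, card_univ, smul_eq_mul, smul_eq_mul, ← hT] at h4
      exact h4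
    have h4 : ∑ s ∈ Icc (1 : ℤ) D, ((cw s).card : ℝ) ≤ G.card * T + D * (δ / 2 * T) := by
      have h5 : ∀ s ∈ Icc (1 : ℤ) D, ((cw s).card : ℝ) ≤ (if s ∈ G then (T : ℝ) else 0) + δ / 2 * T := by
        intro s hs
        have h6 : ((cw s).card : ℝ) ≤ T := by
          rw [hT]
          exact_mod_cast (card_le_univ (cw s))
        by_cases h7 : s ∈ G
        · rw [if_pos h7]
          have : 0 ≤ δ / 2 * T := by positivity
          linarith
        · rw [if_neg h7, zero_add]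
          by_contra h8
          apply h7
          rw [hG, mem_filter]
          exact ⟨hs, (not_le.1 h8).le⟩
      refine (sum_le_sum h5).trans (le_of_eq ?_)
      rw [sum_add_distrib, sum_const, Int.card_Icc, ← sum_filter, sum_const, nsmul_eq_mul, nsmul_eq_mul]
      have h6 : (Icc (1 : ℤ) D).filter (fun s => s ∈ G) = G := by
        apply filter_mem_eq_inter.trans
        apply inter_eq_right.2
        rw [hG]
        exact filter_subset _ _
      rw [h6]
      simp
    have h5 : (T : ℝ) * B.card ≤ ∑ s ∈ Icc (1 : ℤ) D, ((cw s).card : ℝ) + T * ((U * (N * C) : ℕ) : ℝ) := by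
      have h6 : ((T * B.card : ℕ) : ℝ) ≤
          ((∑ s ∈ Icc (1 : ℤ) D, (cw s).card + T * (U * (N * C)) : ℕ) : ℝ) := by exact_mod_cast h3
      push_cast at h6 ⊢
      exact h6
    have h6 : (T : ℝ) * (δ * D) ≤ T * B.card := mul_le_mul_of_nonneg_left hBc hTR.le
    have h7 : (T : ℝ) * (4 * ((U * (N * C) : ℕ) : ℝ)) ≤ T * (D * δ) := mul_le_mul_of_nonneg_left hDR hTR.le
    have h8 : (T : ℝ) * (δ / 4 * D) ≤ T * G.card := by nlinarith
    exact le_of_mul_le_mul_left h8 hTR
  · intro s hs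
    rw [hG, mem_filter] at hs
    obtain ⟨V, hV, hVS⟩ := hN (cw s) (by rw [← hT]; exact hs.2)
    obtain ⟨b, τ, h1, h2, h3, h4⟩ := sum_line V hV φ C hC
    refine ⟨b, τ, h1, h2, h3, fun a => ?_⟩
    have h5 := hVS a
    rw [hcw, mem_filter] at h5
    rw [← h4 a]
    exact h5.2

end Pool.Agent.V5helper49.BW
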