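import Pool.Agent.V5helper49.BW.Mrp
import Pool.Agent.V5helper49.BW.Cube

/-! The squares of the Moebius function replaced by a periodic condition. -/

set_option autoImplicit false
set_option maxHeartbeats 4000000

namespace Pool.Agent.V5helper49.BW

open Finset

/-- the Möbius function at the absolute value -/
noncomputable def mu (m : ℤ) : ℝ := ((ArithmeticFunction.moebius m.natAbs : ℤ) : ℝ)

lemma mu_abs (m : ℤ) : |mu m| ≤ 1 := by
  unfold mu
  rw [← Int.cast_abs]
  exact_mod_cast ArithmeticFunction.abs_moebius_le_one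

/-- not divisible by the square of a prime up to `E` -/
def Fr (E : ℕ) (m : ℤ) : Prop := ∀ p : ℕ, p.Prime → p ≤ E → ¬ ((p : ℤ) ^ 2 ∣ m)

open Classical in
/-- its indicator function -/
noncomputable def phi (E : ℕ) (m : ℤ) : ℝ := if Fr E m then 1 else 0

/-- a period -/
def per (E : ℕ) : ℕ := (E.factorial) ^ 2

lemma per_pos (E : ℕ) : 0 < per E := by unfold per; positivity

lemma Fr_per (E : ℕ) (m m' : ℤ) (h : (per E : ℤ) ∣ m - m') : Fr E m ↔ Fr E m' := by
  unfold Fr
  refine forall_congr' fun p => forall_congr' fun hp => forall_congr' fun hpE => ?_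
  have h2 : ((p : ℤ) ^ 2) ∣ m - m' := by
    refine dvd_trans ?_ h
    unfold per
    push_cast
    exact pow_dvd_pow_of_dvd (by exact_mod_cast Nat.dvd_factorial hp.pos hpE) 2
  have h3 := dvd_iff_dvd_of_dvd_sub h2
  rw [h3]

/-- where they differ -/
lemma diff_prime (E : ℕ) (m : ℤ) (h : mu m ^ 2 ≠ phi E m) :
    ∃ p : ℕ, p.Prime ∧ E < p ∧ (p : ℤ) ^ 2 ∣ m := by
  by_contra hcon
  push Not at hcon
  apply h
  by_cases hsq : Squarefree m.natAbs
  · have h1 : mu m ^ 2 = 1 := by
      unfold mu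
      rw [← Int.cast_pow, ArithmeticFunction.moebius_sq_eq_one_of_squarefree hsq]
      norm_num
    have h2 : Fr E m := by
      intro p hp _ hdvd
      have h3 : (p * p) ∣ m.natAbs := by
        have h4 : (((p * p : ℕ)) : ℤ) ∣ m := by push_cast; rw [← pow_two]; exact hdvd
        exact Int.natCast_dvd.1 h4
      have := hsq p h3
      rw [Nat.isUnit_iff] at this
      exact hp.one_lt.ne' this
    rw [h1]
    unfold phi
    rw [if_pos h2]
  · have h1 : mu m ^ 2 = 0 := by
      unfold mu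
      rw [ArithmeticFunction.moebius_eq_zero_of_not_squarefree hsq]
      simp
    have h2 : ¬ Fr E m := by
      rw [Nat.squarefree_iff_prime_squarefree] at hsq
      push Not at hsq
      obtain ⟨p, hp, hdvd⟩ := hsq
      intro hF
      have h3 : (p : ℤ) ^ 2 ∣ m := by
        have h4 : ((p * p : ℕ) : ℤ) ∣ m := Int.natCast_dvd.2 hdvd
        rw [pow_two]; exact_mod_cast h4
      rcases le_or_gt p E with h4 | h4
      · exact hF p hp h4 h3
      · exact hcon p hp h4 h3
    rw [h1]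
    unfold phi
    rw [if_neg h2]

lemma cnt_sq (a b : ℤ) (p x : ℕ) (hp : p.Prime) (ha : a ≠ 0) (hpa : a.natAbs < p) :
    ((Icc (1 : ℤ) x).filter (fun n => ((p : ℤ) ^ 2) ∣ a * n + b)).card ≤ x / p ^ 2 + 1 := by
  have hp2 : 0 < p ^ 2 := pow_pos hp.pos 2
  have h1 : ((Icc (1 : ℤ) x).filter (fun n => ((p : ℤ) ^ 2) ∣ a * n + b)).card
      ≤ (range (x / p ^ 2 + 1)).card := by
    apply Finset.card_le_card_of_injOn (fun n => (n / (p : ℤ) ^ 2).toNat)
    · intro n hn
      rw [Finset.mem_coe, mem_filter, mem_Icc] at hn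
      rw [Finset.mem_coe, mem_range, Nat.lt_succ_iff]
      have hpz : (0 : ℤ) < (p : ℤ) ^ 2 := by exact_mod_cast hp2
      have h2 : n / (p : ℤ) ^ 2 ≤ (x : ℤ) / (p : ℤ) ^ 2 :=
        Int.ediv_le_ediv hpz hn.1.2
      have h3 : (((x / p ^ 2 : ℕ)) : ℤ) = (x : ℤ) / (p : ℤ) ^ 2 := by push_cast; rfl
      show (n / (p : ℤ) ^ 2).toNat ≤ x / p ^ 2
      rw [← h3] at h2
      exact Int.toNat_le.2 h2
    · intro n hn n' hn' heq
      rw [Finset.mem_coe, mem_filter, mem_Icc] at hn hn'
      have h4 : ((p : ℤ) ^ 2) ∣ a * (n - n') := by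
        have := dvd_sub hn.2 hn'.2
        have h5 : a * n + b - (a * n' + b) = a * (n - n') := by ring
        rwa [h5] at this
      have hcop : IsCoprime ((p : ℤ) ^ 2) a := by
        apply IsCoprime.pow_left
        rw [Int.isCoprime_iff_gcd_eq_one]
        have h6 : Nat.Coprime p a.natAbs := by
          rw [Nat.Prime.coprime_iff_not_dvd hp]
          intro h7
          have := Nat.le_of_dvd (Int.natAbs_pos.2 ha) h7
          omega
        simpa [Int.gcd] using h6
      obtain ⟨t, ht⟩ := hcop.dvd_of_dvd_mul_left h4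
      have h8 : 0 ≤ n / (p : ℤ) ^ 2 := Int.ediv_nonneg (by omega) (by positivity)
      have h9 : 0 ≤ n' / (p : ℤ) ^ 2 := Int.ediv_nonneg (by omega) (by positivity)
      have heq' : n / (p : ℤ) ^ 2 = n' / (p : ℤ) ^ 2 := by
        simp only at heq
        omega
      have h10 : n = n' + (p : ℤ) ^ 2 * t := by linarith
      have hpp : (0 : ℤ) < (p : ℤ) ^ 2 := by exact_mod_cast hp2
      rw [h10, Int.add_mul_ediv_left _ _ hpp.ne'] at heq'
      have : t = 0 := by omega
      rw [h10, this]; ring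
  simpa using h1

/-- the number of exceptions -/
lemma cnt_diff (a b : ℤ) (E x A : ℕ) (hE : 0 < E) (ha : a ≠ 0) (haE : a.natAbs ≤ E) 
    (hA : ∀ n ∈ Icc (1 : ℤ) x, |a * n + b| ≤ A * x) :
    (((Icc (1 : ℤ) x).filter (fun n => mu (a * n + b) ^ 2 ≠ phi E (a * n + b))).card : ℝ)
      ≤ 1 + x / E + Real.sqrt (A * x) := by
  classical
  set N := Nat.sqrt (A * x) with hN
  have hsub : (Icc (1 : ℤ) x).filter (fun n => mu (a * n + b) ^ 2 ≠ phi E (a * n + b)) ⊆
      (Icc (1 : ℤ) x).filter (fun n => a * n + b = 0) ∪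
        (Ioc E N).biUnion (fun p => if p.Prime then
          (Icc (1 : ℤ) x).filter (fun n => ((p : ℤ) ^ 2) ∣ a * n + b) else ∅) := by
    intro n hn
    rw [mem_filter] at hn
    rw [mem_union]
    by_cases h0 : a * n + b = 0
    · left; rw [mem_filter]; exact ⟨hn.1, h0⟩
    · right
      obtain ⟨p, hp, hpE, hdvd⟩ := diff_prime E _ hn.2
      rw [mem_biUnion]
      refine ⟨p, ?_, ?_⟩
      · rw [mem_Ioc]
        refine ⟨hpE, ?_⟩
        rw [hN, Nat.le_sqrt]
        have h1 := Int.le_of_dvd (abs_pos.2 h0) ((dvd_abs _ _).2 hdvd)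
        have h2 := h1.trans (hA n hn.1)
        have h3 : (p : ℤ) * p ≤ A * x := by rw [← pow_two]; exact h2
        exact_mod_cast h3
      · rw [if_pos hp, mem_filter]
        exact ⟨hn.1, hdvd⟩
  have hz : ((Icc (1 : ℤ) x).filter (fun n => a * n + b = 0)).card ≤ 1 := by
    rw [Finset.card_le_one]
    intro n hn n' hn'
    rw [mem_filter] at hn hn'
    have : a * (n - n') = 0 := by linarith [hn.2, hn'.2]
    rcases mul_eq_zero.1 this with h | h
    · exact absurd h ha
    · linarith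
  have h1 := Finset.card_le_card hsub
  have h2 : (((Icc (1 : ℤ) x).filter (fun n => mu (a * n + b) ^ 2 ≠ phi E (a * n + b))).card : ℝ)
      ≤ 1 + ∑ p ∈ Ioc E N, ((x : ℝ) * ((p : ℝ) ^ 2)⁻¹ + 1) := by
    have h3 : (((Icc (1 : ℤ) x).filter (fun n => mu (a * n + b) ^ 2 ≠ phi E (a * n + b))).card : ℝ) ≤
        (((Icc (1 : ℤ) x).filter (fun n => a * n + b = 0)).card : ℝ) +
          ∑ p ∈ Ioc E N, (((if p.Prime then
          (Icc (1 : ℤ) x).filter (fun n => ((p : ℤ) ^ 2) ∣ a * n + b) else ∅).card : ℕ) : ℝ) := by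
      exact_mod_cast h1.trans ((Finset.card_union_le _ _).trans
        (Nat.add_le_add_left Finset.card_biUnion_le _))
    refine h3.trans (add_le_add (by exact_mod_cast hz) (Finset.sum_le_sum fun p hp => ?_))
    rw [mem_Ioc] at hp
    by_cases hpp : p.Prime
    · rw [if_pos hpp]
      have h4 := cnt_sq a b p x hpp ha (by omega)
      have h5 : ((x / p ^ 2 : ℕ) : ℝ) ≤ (x : ℝ) / ((p ^ 2 : ℕ) : ℝ) := Nat.cast_div_le
      calc _ ≤ ((x / p ^ 2 + 1 : ℕ) : ℝ) := by exact_mod_cast h4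
        _ ≤ _ := by push_cast at h5 ⊢; rw [← div_eq_mul_inv]; linarith
    · rw [if_neg hpp]
      simp
      positivity
  refine h2.trans ?_
  rw [Finset.sum_add_distrib, ← Finset.mul_sum, add_assoc]
  have h6 : ∑ p ∈ Ioc E N, ((p : ℝ) ^ 2)⁻¹ ≤ 1 / E := by
    rcases le_or_gt E N with h | h
    · have := sum_Ioc_inv_sq_le_sub (α := ℝ) hE.ne' h
      have h7 : (0 : ℝ) ≤ (N : ℝ)⁻¹ := by positivity
      rw [one_div]
      linarith
    · rw [Finset.Ioc_eq_empty (by omega)]
      simp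
  have h7 : ∑ p ∈ Ioc E N, (1 : ℝ) ≤ Real.sqrt (A * x) := by
    rw [Finset.sum_const, Nat.card_Ioc, nsmul_eq_mul, mul_one]
    have h8 : ((N - E : ℕ) : ℝ) ≤ N := by exact_mod_cast Nat.sub_le _ _
    refine h8.trans ?_
    rw [hN]
    have := Real.nat_sqrt_le_real_sqrt (a := A * x)
    push_cast at this
    exact this
  have h9 : (x : ℝ) * ∑ p ∈ Ioc E N, ((p : ℝ) ^ 2)⁻¹ ≤ x / E := by
    calc _ ≤ (x : ℝ) * (1 / E) := mul_le_mul_of_nonneg_left h6 (Nat.cast_nonneg _)
      _ = x / E := by ring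
  linarith

/-- no form is divisible by the square of a prime up to `E` -/
def WW {k : ℕ} (a b c : Fin k → ℤ) (E : ℕ) (d n : ℤ) : Prop := ∀ i, Fr E (a i * n + b i * d + c i)

lemma WW_shift {k : ℕ} (a b c : Fin k → ℤ) (E : ℕ) (d n t : ℤ) (h : (per E : ℤ) ∣ t) :
    WW a b c E d (n + t) ↔ WW a b c E d n := by
  unfold WW
  refine forall_congr' fun i => Fr_per E _ _ ?_
  have : a i * (n + t) + b i * d + c i - (a i * n + b i * d + c i) = a i * t := by ring
  rw [this]
  exact Dvd.dvd.mul_left h _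

lemma WW_class {k : ℕ} (a b c : Fin k → ℤ) (E : ℕ) (d d' n : ℤ) (h : (per E : ℤ) ∣ d - d') :
    WW a b c E d n ↔ WW a b c E d' n := by
  unfold WW
  refine forall_congr' fun i => Fr_per E _ _ ?_
  have : a i * n + b i * d + c i - (a i * n + b i * d' + c i) = b i * (d - d') := by ring
  rw [this]
  exact Dvd.dvd.mul_left h _

lemma mu_lz (m : ℤ) : mu m = mu m ^ 2 * lz m := by
  by_cases hsq : Squarefree m.natAbs
  · have h1 : mu m ^ 2 = 1 := by
      unfold mu
      rw [← Int.cast_pow, ArithmeticFunction.moebius_sq_eq_one_of_squarefree hsq]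
      norm_num
    rw [h1, one_mul]
    unfold mu lz
    rw [ArithmeticFunction.moebius_apply_of_squarefree hsq]
    push_cast
    rfl
  · have h1 : mu m = 0 := by
      unfold mu
      rw [ArithmeticFunction.moebius_eq_zero_of_not_squarefree hsq]
      norm_num
    rw [h1]
    ring

/-- the correlation with signs -/
noncomputable def co {k : ℕ} (a b c : Fin k → ℤ) (e : Fin k → ℕ) (J : Finset (Fin k)) (g : Fin k → ℤ → ℝ)
    (x : ℕ) (d : ℤ) : ℝ :=
  ∑ n ∈ Icc (1 : ℤ) x, (∏ i, mu (a i * n + b i * d + c i) ^ (e i)) *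
    ∏ j ∈ J, g j (a j * n + b j * d + c j)

open Classical in
/-- the sum with the periodic condition -/
noncomputable def SL {k : ℕ} (a b c : Fin k → ℤ) (I J : Finset (Fin k)) (g : Fin k → ℤ → ℝ) (E x : ℕ)
    (d : ℤ) : ℝ :=
  ∑ n ∈ Icc (1 : ℤ) x, (if WW a b c E d n then (1 : ℝ) else 0) *
    ((∏ i ∈ I, lz (a i * n + b i * d + c i)) * ∏ j ∈ J, g j (a j * n + b j * d + c j))

lemma co_SL {k : ℕ} (a b c : Fin k → ℤ) (e : Fin k → ℕ) (he : ∀ i, e i = 1 ∨ e i = 2)
    (J : Finset (Fin k)) (g : Fin k → ℤ → ℝ) (hg : ∀ i y, g i y = 1 ∨ g i y = -1) (E x : ℕ) (d : ℤ) :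
    |co a b c e J g x d - SL a b c (univ.filter (fun i => e i = 1)) J g E x d| ≤
      ∑ i, 2 * (((Icc (1 : ℤ) x).filter
        (fun n => mu (a i * n + (b i * d + c i)) ^ 2 ≠ phi E (a i * n + (b i * d + c i)))).card : ℝ) := by
  classical
  unfold co SL
  rw [← sum_sub_distrib]
  have h0 : ∀ i, 2 * (((Icc (1 : ℤ) x).filter
        (fun n => mu (a i * n + (b i * d + c i)) ^ 2 ≠ phi E (a i * n + (b i * d + c i)))).card : ℝ) =
      ∑ n ∈ Icc (1 : ℤ) x, 2 * (if mu (a i * n + b i * d + c i) ^ 2 ≠ phi E (a i * n + b i * d + c i)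
        then (1 : ℝ) else 0) := by
    intro i
    simp only [add_assoc]
    rw [← mul_sum, ← sum_filter, sum_const, nsmul_eq_mul, mul_one]
  rw [sum_congr rfl fun i _ => h0 i, sum_comm]
  refine (abs_sum_le_sum_abs _ _).trans (sum_le_sum fun n _ => ?_)
  have hJ : |∏ j ∈ J, g j (a j * n + b j * d + c j)| = 1 := by
    rcases pm_prod J (fun j => g j (a j * n + b j * d + c j)) (fun _ _ => hg _ _) with h | h <;>
      rw [h] <;> norm_num
  by_cases hall : ∀ i, mu (a i * n + b i * d + c i) ^ 2 = phi E (a i * n + b i * d + c i)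
  · have h1 : ∏ i, mu (a i * n + b i * d + c i) ^ (e i) =
        (if WW a b c E d n then (1 : ℝ) else 0) *
          ∏ i ∈ univ.filter (fun i => e i = 1), lz (a i * n + b i * d + c i) := by
      have h2 : ∀ i, mu (a i * n + b i * d + c i) ^ (e i) = phi E (a i * n + b i * d + c i) *
          (if e i = 1 then lz (a i * n + b i * d + c i) else 1) := by
        intro i
        rcases he i with h | h
        · rw [if_pos h, h, pow_one, ← hall i]
          exact mu_lz _
        · rw [if_neg (by omega), h, mul_one, hall i]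
      rw [prod_congr rfl fun i _ => h2 i, prod_mul_distrib, ← prod_filter]
      congr 1
      by_cases hW : WW a b c E d n
      · rw [if_pos hW]
        apply prod_eq_one
        intro i _
        unfold phi
        rw [if_pos (hW i)]
      · rw [if_neg hW]
        unfold WW at hW
        push Not at hW
        obtain ⟨i, hi⟩ := hW
        apply prod_eq_zero (mem_univ i)
        unfold phi
        rw [if_neg hi]
    rw [h1, mul_assoc, sub_self, abs_zero]
    exact sum_nonneg fun i _ => by split_ifs <;> norm_num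
  · push Not at hall
    obtain ⟨i, hi⟩ := hall
    have h1 : |(∏ i, mu (a i * n + b i * d + c i) ^ (e i)) * ∏ j ∈ J, g j (a j * n + b j * d + c j)| ≤ 1 := by
      rw [abs_mul, hJ, mul_one, abs_prod]
      apply prod_le_one (fun _ _ => abs_nonneg _)
      intro i _
      rw [abs_pow]
      exact pow_le_one₀ (abs_nonneg _) (mu_abs _)
    have h2 : |(if WW a b c E d n then (1 : ℝ) else 0) *
          ((∏ i ∈ univ.filter (fun i => e i = 1), lz (a i * n + b i * d + c i)) *
            ∏ j ∈ J, g j (a j * n + b j * d + c j))| ≤ 1 := by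
      rw [abs_mul, abs_mul, hJ, mul_one]
      have h3 : |∏ i ∈ univ.filter (fun i => e i = 1), lz (a i * n + b i * d + c i)| = 1 := by
        rcases pm_prod (univ.filter (fun i => e i = 1)) (fun i => lz (a i * n + b i * d + c i))
          (fun _ _ => lz_pm _) with h | h <;> rw [h] <;> norm_num
      rw [h3, mul_one]
      split_ifs <;> norm_num
    calc _ ≤ |(∏ i, mu (a i * n + b i * d + c i) ^ (e i)) * ∏ j ∈ J, g j (a j * n + b j * d + c j)| +
          |(if WW a b c E d n then (1 : ℝ) else 0) *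
          ((∏ i ∈ univ.filter (fun i => e i = 1), lz (a i * n + b i * d + c i)) *
            ∏ j ∈ J, g j (a j * n + b j * d + c j))| := abs_sub _ _
      _ ≤ 2 := by linarith
      _ = 2 * (if mu (a i * n + b i * d + c i) ^ 2 ≠ phi E (a i * n + b i * d + c i)
          then (1 : ℝ) else 0) := by
          rw [if_pos hi, mul_one]
      _ ≤ _ := single_le_sum (f := fun i => 2 * (if mu (a i * n + b i * d + c i) ^ 2 ≠
            phi E (a i * n + b i * d + c i) then (1 : ℝ) else 0))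
            (fun _ _ => by split_ifs <;> norm_num) (mem_univ i)

/-- the approximation -/
theorem approx (R k : ℕ) (a b : Fin k → ℤ) (ha : ∀ i, a i ≠ 0) (η : ℝ) (hη : 0 < η) :
    ∃ E x₀ : ℕ, 0 < E ∧ ∀ e : Fin k → ℕ, (∀ i, e i = 1 ∨ e i = 2) → ∀ D x : ℕ, x₀ ≤ x → D ≤ R * x →
      ∀ c : Fin k → ℤ, (∀ i, |c i| ≤ R * x) → ∀ (J : Finset (Fin k)) (g : Fin k → ℤ → ℝ),
      (∀ i y, g i y = 1 ∨ g i y = -1) → ∀ d : ℤ, |d| ≤ D →
      |co a b c e J g x d - SL a b c (univ.filter (fun i => e i = 1)) J g E x d| ≤ η * x := by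
  obtain ⟨A, hA⟩ : ∃ A : ℕ, A = ∑ i, ((a i).natAbs + (b i).natAbs * R + R) := ⟨_, rfl⟩
  obtain ⟨E₀, hE₀⟩ := exists_nat_ge (6 * (k : ℝ) / η)
  obtain ⟨x₁, hx₁⟩ := exists_nat_ge (6 * (k : ℝ) / η)
  obtain ⟨x₂, hx₂⟩ := exists_nat_ge ((A : ℝ) * (6 * (k : ℝ) / η) ^ 2)
  obtain ⟨E, hE⟩ : ∃ E : ℕ, E = E₀ + A + 1 := ⟨_, rfl⟩
  have hE0 : 0 < E := by omega
  have hER : (0 : ℝ) < E := by exact_mod_cast hE0
  refine ⟨E, x₁ + x₂ + 1, hE0, fun e he D x hx hDx c hc J g hg d hd => ?_⟩
  have hx0 : (0 : ℝ) < x := by exact_mod_cast (by omega : 0 < x)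
  refine (co_SL a b c e he J g hg E x d).trans ?_
  have h1 : ∀ i : Fin k, 2 * (((Icc (1 : ℤ) x).filter
      (fun n => mu (a i * n + (b i * d + c i)) ^ 2 ≠ phi E (a i * n + (b i * d + c i)))).card : ℝ) ≤
      2 * (1 + x / E + Real.sqrt (A * x)) := by
    intro i
    have hAi : (a i).natAbs + (b i).natAbs * R + R ≤ A := by
      rw [hA]
      exact single_le_sum (f := fun i => (a i).natAbs + (b i).natAbs * R + R)
        (fun _ _ => Nat.zero_le _) (mem_univ i)
    have h2 := cnt_diff (a i) (b i * d + c i) E x A hE0 (ha i) (by omega) (by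
      intro n hn
      rw [mem_Icc] at hn
      have h3 : |a i * n + (b i * d + c i)| ≤ |a i| * x + (|b i| * (R * x) + R * x) := by
        refine (abs_add_le _ _).trans (add_le_add ?_ ((abs_add_le _ _).trans (add_le_add ?_ (hc i))))
        · rw [abs_mul]
          refine mul_le_mul_of_nonneg_left ?_ (abs_nonneg _)
          rw [abs_of_nonneg (by linarith [hn.1])]
          exact hn.2
        · rw [abs_mul]
          refine mul_le_mul_of_nonneg_left ?_ (abs_nonneg _)
          exact hd.trans (by exact_mod_cast hDx)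
      refine h3.trans ?_
      have h4 : (((a i).natAbs + (b i).natAbs * R + R : ℕ) : ℤ) ≤ A := by exact_mod_cast hAi
      push_cast at h4
      have h5 : (0 : ℤ) ≤ x := Int.natCast_nonneg x
      nlinarith)
    linarith
  refine (sum_le_sum fun i _ => h1 i).trans ?_
  rw [sum_const, card_univ, Fintype.card_fin, nsmul_eq_mul]
  have hk0 : (0 : ℝ) ≤ k := Nat.cast_nonneg k
  have e1 : 2 * (k : ℝ) ≤ η / 3 * x := by
    have h2 : 6 * (k : ℝ) / η ≤ x := hx₁.trans (by exact_mod_cast (by omega : x₁ ≤ x))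
    rw [div_le_iff₀ hη] at h2
    linarith
  have e2 : 2 * (k : ℝ) * (x / E) ≤ η / 3 * x := by
    have h2 : 6 * (k : ℝ) / η ≤ E := hE₀.trans (by exact_mod_cast (by omega : E₀ ≤ E))
    rw [div_le_iff₀ hη] at h2
    rw [← mul_div_assoc, div_le_iff₀ hER]
    nlinarith
  have e3 : 2 * (k : ℝ) * Real.sqrt (A * x) ≤ η / 3 * x := by
    have h2 : (A : ℝ) * (6 * (k : ℝ) / η) ^ 2 ≤ x := hx₂.trans (by exact_mod_cast (by omega : x₂ ≤ x))
    have h3 : 2 * (k : ℝ) * Real.sqrt (A * x) = Real.sqrt ((2 * k) ^ 2 * (A * x)) := by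
      rw [Real.sqrt_mul (show (0 : ℝ) ≤ (2 * (k : ℝ)) ^ 2 by positivity) (A * x),
        Real.sqrt_sq (by positivity)]
    rw [h3]
    apply Real.sqrt_le_iff.2
    refine ⟨by positivity, ?_⟩
    have h4 : (A : ℝ) * (6 * (k : ℝ) / η) ^ 2 * (η ^ 2 / 9) = 4 * k ^ 2 * A := by
      field_simp
      ring
    have h5 : 4 * (k : ℝ) ^ 2 * A ≤ x * (η ^ 2 / 9) := by
      rw [← h4]
      exact mul_le_mul_of_nonneg_right h2 (by positivity)
    nlinarith
  calc (k : ℝ) * (2 * (1 + x / E + Real.sqrt (A * x))) =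
        2 * (k : ℝ) + 2 * (k : ℝ) * (x / E) + 2 * (k : ℝ) * Real.sqrt (A * x) := by ring
    _ ≤ η / 3 * x + η / 3 * x + η / 3 * x := by linarith
    _ = η * x := by ring

end Pool.Agent.V5helper49.BW
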