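import Pool.Agent.V5helper49.BW.Dense
import Pool.Agent.V5helper49.BW.Sqf

/-! One Moebius factor and arbitrary signs along windows of dilates. -/

set_option autoImplicit false
set_option maxHeartbeats 4000000

namespace Pool.Agent.V5helper49.BW

open Finset

/-- the counting inequality -/
lemma final_step (D U C N : ℕ) (X : ℤ → ℤ → ℝ) (y η δ₁ : ℝ) (hy : 0 ≤ y) (G : ℤ → Finset ℤ)
    (hG : ∀ l ∈ Icc (1 : ℤ) U, G l ⊆ Icc (1 : ℤ) D)
    (hGc : ∀ l ∈ Icc (1 : ℤ) U, δ₁ * D ≤ (G l).card)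
    (hlow : ∀ l ∈ Icc (1 : ℤ) U, ∀ s ∈ G l, ∃ b τ : ℤ, |b| ≤ C ∧ 1 ≤ τ ∧ τ ≤ N ∧
      y ≤ |X (s + l * b) (l * τ)|)
    (hup : ∀ τ ∈ Icc (1 : ℤ) N, ∀ a' ∈ Icc (1 - (U * C : ℕ) : ℤ) (D + (U * C : ℕ)),
      ∑ l ∈ Icc (1 : ℤ) U, |X a' (l * τ)| ≤ η * U) :
    (U : ℝ) * (δ₁ * D * y) ≤ ((2 * C + 1) * N : ℕ) * (((D + 2 * (U * C) : ℕ) : ℝ) * (η * U)) := by
  classical
  obtain ⟨Pt, hPt⟩ : ∃ Pt : Finset (ℤ × ℤ), Pt = Icc (-(C : ℤ)) C ×ˢ Icc (1 : ℤ) N := ⟨_, rfl⟩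
  have hPtc : Pt.card = (2 * C + 1) * N := by
    rw [hPt, card_product, Int.card_Icc, Int.card_Icc]
    congr 1 <;> omega
  have h1 : (U : ℝ) * (δ₁ * D * y) ≤
      ∑ l ∈ Icc (1 : ℤ) U, ∑ s ∈ Icc (1 : ℤ) D, ∑ pt ∈ Pt, |X (s + l * pt.1) (l * pt.2)| := by
    have h2 : ∀ l ∈ Icc (1 : ℤ) U, δ₁ * D * y ≤
        ∑ s ∈ Icc (1 : ℤ) D, ∑ pt ∈ Pt, |X (s + l * pt.1) (l * pt.2)| := by
      intro l hl
      calc δ₁ * D * y ≤ (G l).card * y := mul_le_mul_of_nonneg_right (hGc l hl) hy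
        _ = ∑ s ∈ G l, y := by rw [sum_const, nsmul_eq_mul]
        _ ≤ ∑ s ∈ G l, ∑ pt ∈ Pt, |X (s + l * pt.1) (l * pt.2)| := by
            apply sum_le_sum
            intro s hs
            obtain ⟨b, τ, hb, hτ1, hτ2, hX⟩ := hlow l hl s hs
            refine hX.trans ?_
            rw [abs_le] at hb
            exact single_le_sum (f := fun pt : ℤ × ℤ => |X (s + l * pt.1) (l * pt.2)|)
              (fun _ _ => abs_nonneg _) (show (b, τ) ∈ Pt by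
                rw [hPt, mem_product, mem_Icc, mem_Icc]
                exact ⟨⟨hb.1, hb.2⟩, hτ1, hτ2⟩)
        _ ≤ _ := sum_le_sum_of_subset_of_nonneg (hG l hl) fun _ _ _ =>
            sum_nonneg fun _ _ => abs_nonneg _
    have h3 := sum_le_sum h2
    rw [sum_const, Int.card_Icc, nsmul_eq_mul] at h3
    simpa using h3
  refine h1.trans ?_
  have h4 : ∑ l ∈ Icc (1 : ℤ) U, ∑ s ∈ Icc (1 : ℤ) D, ∑ pt ∈ Pt, |X (s + l * pt.1) (l * pt.2)| =
      ∑ pt ∈ Pt, ∑ l ∈ Icc (1 : ℤ) U, ∑ s ∈ Icc (1 : ℤ) D, |X (s + l * pt.1) (l * pt.2)| := by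
    rw [sum_congr rfl fun l _ => sum_comm, sum_comm]
  rw [h4]
  have h5 : ∀ pt ∈ Pt, ∑ l ∈ Icc (1 : ℤ) U, ∑ s ∈ Icc (1 : ℤ) D, |X (s + l * pt.1) (l * pt.2)| ≤
      ((D + 2 * (U * C) : ℕ) : ℝ) * (η * U) := by
    intro pt hpt
    rw [hPt, mem_product, mem_Icc, mem_Icc] at hpt
    have h6 : ∀ l ∈ Icc (1 : ℤ) U, ∑ s ∈ Icc (1 : ℤ) D, |X (s + l * pt.1) (l * pt.2)| ≤
        ∑ a' ∈ Icc (1 - (U * C : ℕ) : ℤ) (D + (U * C : ℕ)), |X a' (l * pt.2)| := by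
      intro l hl
      rw [mem_Icc] at hl
      have h7 : ∑ s ∈ Icc (1 : ℤ) D, |X (s + l * pt.1) (l * pt.2)| =
          ∑ a' ∈ (Icc (1 : ℤ) D).image (fun s => s + l * pt.1), |X a' (l * pt.2)| := by
        rw [sum_image]
        intro u _ v _ h
        exact add_left_injective _ h
      rw [h7]
      apply sum_le_sum_of_subset_of_nonneg _ fun _ _ _ => abs_nonneg _
      intro a' ha'
      rw [mem_image] at ha'
      obtain ⟨s, hs, rfl⟩ := ha'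
      rw [mem_Icc] at hs ⊢
      have h8 : |l * pt.1| ≤ ((U * C : ℕ) : ℤ) := by
        rw [abs_mul, abs_of_nonneg (by linarith [hl.1])]
        push_cast
        exact mul_le_mul hl.2 (abs_le.2 ⟨hpt.1.1, hpt.1.2⟩) (abs_nonneg _) (Int.natCast_nonneg _)
      rw [abs_le] at h8
      constructor <;> linarith [h8.1, h8.2, hs.1, hs.2]
    refine (sum_le_sum h6).trans ?_
    rw [sum_comm]
    refine (sum_le_sum fun a' ha' => hup pt.2 (mem_Icc.2 hpt.2) a' ha').trans ?_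
    rw [sum_const, Int.card_Icc, nsmul_eq_mul]
    refine le_of_eq ?_
    congr 2
    omega
  refine (sum_le_sum h5).trans (le_of_eq ?_)
  rw [sum_const, hPtc, nsmul_eq_mul]

/-- few failures -/
lemma few (M ε x v S σ n F sq : ℝ) (hM1 : 1 ≤ M) (hε : 0 < ε) (hx : 0 < x)
    (hσ : σ * S = |S|) (h1 : (1 - 1 / M) * sq + ε * x < |F|) (h2 : |F - S| ≤ ε / 8 * x)
    (h3 : v - ε / 8 * x ≤ sq) (h4 : σ * S = v - 2 * n) : n ≤ v / (2 * M) - ε * x / 4 := by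
  have hM0 : 0 < M := by linarith
  have hc0 : 0 ≤ 1 - 1 / M := by
    rw [sub_nonneg, div_le_one hM0]
    exact hM1
  have hc1 : 1 - 1 / M ≤ 1 := by
    have : 0 < 1 / M := by positivity
    linarith
  have h5 : |F| ≤ |S| + ε / 8 * x := by
    have := abs_sub_abs_le_abs_sub F S
    linarith
  have h7 : (1 - 1 / M) * (v - ε / 8 * x) ≤ (1 - 1 / M) * sq := mul_le_mul_of_nonneg_left h3 hc0
  have h8 : (1 - 1 / M) * (ε / 8 * x) ≤ 1 * (ε / 8 * x) := mul_le_mul_of_nonneg_right hc1 (by positivity)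
  have h9 : (1 - 1 / M) * (v - ε / 8 * x) = (1 - 1 / M) * v - (1 - 1 / M) * (ε / 8 * x) := by ring
  have h6 : (1 - 1 / M) * v = v - 2 * (v / (2 * M)) := by
    field_simp
  have hxe : 0 < ε * x := mul_pos hε hx
  linarith

theorem main (R k : ℕ) (a b : Fin k → ℤ) (e : Fin k → ℕ) (ha : ∀ i, a i ≠ 0)
    (he : ∀ i, e i = 1 ∨ e i = 2) (i₀ : Fin k) (hi₀ : e i₀ = 1) (m : ℕ)
    (hcard : (univ.filter (fun i => e i = 1)).card = m + 2)
    (hnp : ∀ j, j ≠ i₀ → e j = 1 → a i₀ * b j ≠ a j * b i₀) (ε : ℝ) (hε : 0 < ε) :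
    ∃ K : ℕ, ∀ D x : ℕ, K ≤ D → D ≤ R * x → ∀ c : Fin k → ℤ, (∀ i, |c i| ≤ R * x) →
      ∀ g : Fin k → ℤ → ℝ, (∀ i y, g i y = 1 ∨ g i y = -1) →
      (((Icc (1 : ℤ) D).filter (fun d => (1 - 1 / ((2 : ℝ) ^ (m + 1) - 1)) *
        co a b c (fun _ => 2) ∅ g x d + ε * x <
        |co a b c e ((univ.filter (fun i => e i = 1)).erase i₀) g x d|)).card : ℝ) ≤ ε * D := by
  classical
  obtain ⟨I1, hI1⟩ : ∃ I1 : Finset (Fin k), I1 = univ.filter (fun i => e i = 1) := ⟨_, rfl⟩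
  rw [← hI1] at hcard ⊢
  have hi₀I : i₀ ∈ I1 := by rw [hI1, mem_filter]; exact ⟨mem_univ _, hi₀⟩
  obtain ⟨J, hJ⟩ : ∃ J : Finset (Fin k), J = I1.erase i₀ := ⟨_, rfl⟩
  rw [← hJ]
  have hJc : J.card = m + 1 := by
    rw [hJ, card_erase_of_mem hi₀I, hcard]
    rfl
  obtain ⟨r, hrinj, hrimg⟩ := enum_exists J hJc (by omega)
  have hrJ : ∀ j ∈ range (m + 1), r j ≠ i₀ ∧ e (r j) = 1 := by
    intro j hj
    have h1 : r j ∈ J := by
      rw [← hrimg]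
      exact mem_image_of_mem r hj
    rw [hJ, mem_erase, hI1, mem_filter] at h1
    exact ⟨h1.1, h1.2.2⟩
  have h2d : (2 : ℝ) ≤ 2 ^ (m + 1) := by
    calc (2 : ℝ) = 2 ^ 1 := by norm_num
      _ ≤ 2 ^ (m + 1) := pow_le_pow_right₀ (by norm_num) (by omega)
  obtain ⟨M, hM⟩ : ∃ M : ℝ, M = 2 ^ (m + 1) - 1 := ⟨_, rfl⟩
  rw [← hM]
  have hM1 : 1 ≤ M := by rw [hM]; linarith
  have hM0 : 0 < M := by linarith
  have hnp' : ∀ j ∈ range (m + 1), b i₀ * a (r j) - a i₀ * b (r j) ≠ 0 := by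
    intro j hj h3
    apply hnp (r j) (hrJ j hj).1 (hrJ j hj).2
    linarith
  obtain ⟨p, q, Λ, hΛ, hpq0, hpq1⟩ := dirs m (a i₀) (b i₀) (fun j => a (r j)) (fun j => b (r j)) hnp'
  -- the constants
  obtain ⟨E, x₁, hE, happ⟩ := approx R k a b ha (ε / 8) (by positivity)
  obtain ⟨P, hP⟩ : ∃ P : ℕ, P = per E := ⟨_, rfl⟩
  have hP0 : 0 < P := by rw [hP]; exact per_pos E
  have hPR : (0 : ℝ) < P := by exact_mod_cast hP0
  have hPz : (P : ℤ) ≠ 0 := by exact_mod_cast hP0.ne'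
  obtain ⟨ε₂, hε₂d⟩ : ∃ ε₂ : ℝ, ε₂ = ε / (2 * P) := ⟨_, rfl⟩
  have hε₂ : 0 < ε₂ := by rw [hε₂d]; positivity
  have : Nonempty {S : Finset ℕ // S ∈ (range (m + 1)).powerset} := ⟨⟨∅, empty_mem_powerset _⟩⟩
  obtain ⟨N, C, hmany⟩ := many {S : Finset ℕ // S ∈ (range (m + 1)).powerset}
    (fun S => (P : ℤ) * ∑ l ∈ S.1, q l) ε₂ hε₂
  obtain ⟨Pc, hPc⟩ : ∃ Pc : ℝ, Pc = (((2 * C + 1) * N : ℕ) : ℝ) + 1 := ⟨_, rfl⟩
  have hPc0 : 0 < Pc := by rw [hPc]; positivity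
  obtain ⟨ε', hε'd⟩ : ∃ ε' : ℝ, ε' = ε₂ * ε / (64 * Pc) := ⟨_, rfl⟩
  have hε' : 0 < ε' := by rw [hε'd]; positivity
  have hm : ∀ τ : ℕ, ∃ K : ℕ, 1 ≤ τ → ∀ U x : ℕ, K ≤ U → K ≤ x → U ≤ x → ∀ c : ℤ,
      |c| ≤ (((b i₀).natAbs * (R + 1) + R : ℕ) : ℤ) * x → ∀ θ : ℤ → ℝ, (∀ n, |θ n| ≤ 1) →
      ∑ u ∈ Icc (1 : ℤ) U, |∑ n ∈ Icc (1 : ℤ) x, θ n * lz (a i₀ * n + (2 ^ m * (P * Λ) * τ) * u + c)| ≤
        ε' * (U * x) := by
    intro τ
    by_cases hτ : 1 ≤ τ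
    · have hτz : (τ : ℤ) ≠ 0 := by exact_mod_cast (by omega : τ ≠ 0)
      obtain ⟨K, hK⟩ := mrp (a i₀) (2 ^ m * (P * Λ) * τ) (ha i₀)
        (mul_ne_zero (mul_ne_zero (by positivity) (mul_ne_zero hPz hΛ)) hτz)
        ((b i₀).natAbs * (R + 1) + R) ε' hε'
      exact ⟨K, fun _ => hK⟩
    · exact ⟨0, fun h => absurd h hτ⟩
  choose Kf hKf using hm
  obtain ⟨U, hUd⟩ : ∃ U : ℕ, U = ∑ τ ∈ Icc 1 N, Kf τ + 1 := ⟨_, rfl⟩
  have hU0 : 0 < U := by omega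
  have hUR : (0 : ℝ) < U := by exact_mod_cast hU0
  have hKU : ∀ τ ∈ Icc 1 N, Kf τ ≤ U := by
    intro τ hτ
    have h1 : Kf τ ≤ ∑ τ ∈ Icc 1 N, Kf τ := single_le_sum (f := Kf) (fun _ _ => Nat.zero_le _) hτ
    omega
  obtain ⟨D₀, hD₀⟩ := hmany U
  obtain ⟨Cν, hCν⟩ : ∃ Cν : ℕ, Cν = ∑ j ∈ range (m + 1), U * N * P * (p j).natAbs := ⟨_, rfl⟩
  obtain ⟨x₃, hx₃⟩ := exists_nat_ge (8 * (Cν : ℝ) / ε)
  refine ⟨D₀ + R * (x₁ + x₃ + U * C + U + 1) + 2 * (U * C) + 1, fun D x hD hDx c hc g hg => ?_⟩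
  have hxX : x₁ + x₃ + U * C + U + 1 ≤ x := by
    by_contra hcon
    push Not at hcon
    have : R * x ≤ R * (x₁ + x₃ + U * C + U + 1) := Nat.mul_le_mul_left _ hcon.le
    omega
  have hx0 : (0 : ℝ) < x := by exact_mod_cast (by omega : 0 < x)
  have hD0n : 0 < D := by omega
  have hD0 : (0 : ℝ) < D := by exact_mod_cast hD0n
  have hCνx : (Cν : ℝ) ≤ ε * x / 8 := by
    have h2 : 8 * (Cν : ℝ) / ε ≤ x := hx₃.trans (by exact_mod_cast (by omega : x₃ ≤ x))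
    rw [div_le_iff₀ hε] at h2
    linarith
  have hxe : 0 < ε * x := mul_pos hε hx0
  by_contra hcon
  push Not at hcon
  obtain ⟨Bad, hBad⟩ : ∃ Bad : Finset ℤ, Bad = (Icc (1 : ℤ) D).filter (fun d => (1 - 1 / M) *
        co a b c (fun _ => 2) ∅ g x d + ε * x < |co a b c e J g x d|) := ⟨_, rfl⟩
  rw [← hBad] at hcon
  obtain ⟨Sd, hSd⟩ : ∃ Sd : ℤ → ℝ, Sd = fun d => SL a b c I1 J g E x d := ⟨_, rfl⟩
  -- the pigeonhole
  obtain ⟨⟨ρ, sg⟩, -, hfib⟩ : ∃ κ ∈ Ico (0 : ℤ) P ×ˢ (univ : Finset Bool), ε₂ * D <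
      ((Bad.filter (fun d : ℤ => (d % P, decide (0 ≤ Sd d)) = κ)).card : ℝ) := by
    apply exists_lt_card_fiber_of_nsmul_lt_card_of_maps_to
    · intro d _
      rw [mem_product, mem_Ico]
      exact ⟨⟨Int.emod_nonneg _ hPz, Int.emod_lt_of_pos _ (by exact_mod_cast hP0)⟩, mem_univ _⟩
    · rw [card_product, Int.card_Ico, card_univ, Fintype.card_bool, nsmul_eq_mul]
      have h1 : (((((P : ℤ) - 0).toNat * 2 : ℕ)) : ℝ) * (ε₂ * D) = ε * D := by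
        rw [sub_zero, Int.toNat_natCast, hε₂d]
        push_cast
        field_simp
      rw [h1]
      exact hcon
  obtain ⟨B, hB⟩ : ∃ B : Finset ℤ, B = Bad.filter (fun d : ℤ => (d % P, decide (0 ≤ Sd d)) = (ρ, sg)) :=
    ⟨_, rfl⟩
  rw [← hB] at hfib
  have hBI : B ⊆ Icc (1 : ℤ) D := by
    rw [hB, hBad]
    exact (filter_subset _ _).trans (filter_subset _ _)
  have hBd : ∀ d ∈ B, d % P = ρ ∧ decide (0 ≤ Sd d) = sg ∧ (1 - 1 / M) *
        co a b c (fun _ => 2) ∅ g x d + ε * x < |co a b c e J g x d| := by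
    intro d hd
    rw [hB, mem_filter, Prod.mk.injEq, hBad, mem_filter] at hd
    exact ⟨hd.2.1, hd.2.2, hd.1.2⟩
  obtain ⟨W, hW⟩ : ∃ W : ℤ → Prop, W = WW a b c E ρ := ⟨_, rfl⟩
  obtain ⟨v, hv⟩ : ∃ v : ℝ, v = (((Icc (1 : ℤ) x).filter W).card : ℝ) := ⟨_, rfl⟩
  have hWB : ∀ d ∈ B, ∀ n, (WW a b c E d n ↔ W n) := by
    intro d hd n
    rw [hW]
    apply WW_class
    rw [← hP, ← (hBd d hd).1]
    exact (Int.mod_modEq d (P : ℤ)).dvd
  have hWs : ∀ n t : ℤ, (P : ℤ) ∣ t → (W (n + t) ↔ W n) := by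
    intro n t ht
    rw [hW]
    apply WW_shift
    rw [← hP]
    exact ht
  obtain ⟨σ, hσ, hσB⟩ : ∃ σ : ℝ, (σ = 1 ∨ σ = -1) ∧ ∀ d ∈ B, σ * Sd d = |Sd d| := by
    cases sg with
    | true =>
      refine ⟨1, Or.inl rfl, fun d hd => ?_⟩
      have h1 := of_decide_eq_true (hBd d hd).2.1
      rw [one_mul, abs_of_nonneg h1]
    | false =>
      refine ⟨-1, Or.inr rfl, fun d hd => ?_⟩
      have h1 := not_le.1 (of_decide_eq_false (hBd d hd).2.1)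
      rw [neg_one_mul, abs_of_neg h1]
  -- the relations in terms of the roles
  obtain ⟨g₀, hg₀d⟩ : ∃ g₀ : ℤ → ℝ, g₀ = fun y => lz (y + c i₀) := ⟨_, rfl⟩
  obtain ⟨gr, hgrd⟩ : ∃ gr : ℕ → ℤ → ℝ, gr = fun j y => lz (y + c (r j)) * g (r j) (y + c (r j)) :=
    ⟨_, rfl⟩
  have hg₀ : ∀ y, g₀ y = 1 ∨ g₀ y = -1 := fun y => by rw [hg₀d]; exact lz_pm _
  have hgr : ∀ j y, gr j y = 1 ∨ gr j y = -1 := fun j y => by
    rw [hgrd]
    exact pm_mul (lz_pm _) (hg _ _)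
  have hSL : ∀ d ∈ B, Sd d = ∑ n ∈ Icc (1 : ℤ) x, (if W n then (1 : ℝ) else 0) *
      (g₀ (a i₀ * n + b i₀ * d) * ∏ j ∈ range (m + 1), gr j (a (r j) * n + b (r j) * d)) := by
    intro d hd
    rw [hSd]
    unfold SL
    apply sum_congr rfl
    intro n _
    have h2 : (if WW a b c E d n then (1 : ℝ) else 0) = (if W n then (1 : ℝ) else 0) := by
      by_cases h3 : W n
      · rw [if_pos h3, if_pos ((hWB d hd n).2 h3)]
      · rw [if_neg h3, if_neg (fun h4 => h3 ((hWB d hd n).1 h4))]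
    rw [h2]
    congr 1
    rw [← mul_prod_erase I1 _ hi₀I, ← hJ, mul_assoc, ← prod_mul_distrib, ← hrimg, prod_image hrinj, hg₀d,
      hgrd]
  have hco2 : ∀ d ∈ B, v - ε / 8 * x ≤ co a b c (fun _ => 2) ∅ g x d := by
    intro d hd
    have hdI := mem_Icc.1 (hBI hd)
    have h2 := happ (fun _ => 2) (fun _ => Or.inr rfl) D x (by omega) hDx c hc ∅ g hg d (by
      rw [abs_le]
      omega)
    have h3 : SL a b c (univ.filter (fun i : Fin k => (2 : ℕ) = 1)) ∅ g E x d = v := by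
      unfold SL
      have h4 : univ.filter (fun i : Fin k => (2 : ℕ) = 1) = ∅ := by
        apply filter_eq_empty_iff.2
        intro i _
        omega
      rw [h4, hv]
      simp only [prod_empty, mul_one]
      rw [← sum_filter, sum_const, nsmul_eq_mul, mul_one, filter_congr fun n _ => hWB d hd n]
    rw [h3, abs_le] at h2
    linarith [h2.1]
  have hco1 : ∀ d ∈ B, |co a b c e J g x d - Sd d| ≤ ε / 8 * x := by
    intro d hd
    have hdI := mem_Icc.1 (hBI hd)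
    rw [hSd, hI1]
    exact happ e he D x (by omega) hDx c hc J g hg d (by
      rw [abs_le]
      omega)
  have hgood : ∀ d ∈ B, (((Icc (1 : ℤ) x).filter (fun n => W n ∧
      σ * (g₀ (a i₀ * n + b i₀ * d) * ∏ j ∈ range (m + 1), gr j (a (r j) * n + b (r j) * d)) ≠ 1)).card : ℝ) ≤
      v / (2 * M) - ε * x / 4 := by
    intro d hd
    have h2 := count_id W (fun n => σ * (g₀ (a i₀ * n + b i₀ * d) *
      ∏ j ∈ range (m + 1), gr j (a (r j) * n + b (r j) * d)))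
      (fun n => pm_mul hσ (pm_mul (hg₀ _) (pm_prod _ _ fun _ _ => hgr _ _))) x
    have h3 : ∑ n ∈ Icc (1 : ℤ) x, (if W n then (1 : ℝ) else 0) *
        (σ * (g₀ (a i₀ * n + b i₀ * d) * ∏ j ∈ range (m + 1), gr j (a (r j) * n + b (r j) * d))) =
        σ * Sd d := by
      rw [hSL d hd, mul_sum]
      apply sum_congr rfl
      intro n _
      ring
    rw [h3, ← hv] at h2
    exact few M ε x v (Sd d) σ _ _ _ hM1 hε hx0 (hσB d hd) (hBd d hd).2.2 (hco1 d hd) (hco2 d hd) h2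
  -- the lower bound for one pair
  obtain ⟨X, hX⟩ : ∃ X : ℤ → ℤ → ℝ, X = fun a' τ => ∑ n ∈ Icc (1 : ℤ) x, ((if W n then (1 : ℝ) else 0) *
    ∏ j ∈ range (m + 1), gr j (a (r j) * n + b (r j) * a')) *
      g₀ (a i₀ * n + b i₀ * a' + 2 ^ m * (τ * (P * Λ))) := ⟨_, rfl⟩
  have hlow : ∀ (s l b' τ : ℤ), l ∈ Icc (1 : ℤ) U → 1 ≤ τ → τ ≤ N →
      (∀ S : {S : Finset ℕ // S ∈ (range (m + 1)).powerset},
        s + l * (b' + τ * ((P : ℤ) * ∑ l ∈ S.1, q l)) ∈ B) →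
      ε * x / 4 ≤ |X (s + l * b') (l * τ)| := by
    intro s l b' τ hl hτ1 hτ2 hall
    rw [mem_Icc] at hl
    have h2 := lower m g₀ hg₀ gr hgr (a i₀) (b i₀) (fun j => a (r j)) (fun j => b (r j))
      (fun j => l * τ * P * p j) (fun j => l * τ * P * q j) (l * τ * (P * Λ)) (by
        intro j hj
        have h3 : a (r j) * p j + b (r j) * q j = 0 := hpq0 j hj
        calc a (r j) * (l * τ * P * p j) + b (r j) * (l * τ * P * q j) =
              l * τ * P * (a (r j) * p j + b (r j) * q j) := by ring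
          _ = 0 := by rw [h3, mul_zero]) (by
        intro j hj
        have h3 : a i₀ * p j + b i₀ * q j = cs j * Λ := hpq1 j hj
        calc a i₀ * (l * τ * P * p j) + b i₀ * (l * τ * P * q j) =
              l * τ * P * (a i₀ * p j + b i₀ * q j) := by ring
          _ = _ := by rw [h3]; ring) (s + l * b') x W (by
      intro n j _
      exact hWs _ _ ⟨l * τ * p j, by ring⟩) σ hσ (v / (2 * M) - ε * x / 4) Cν (by
      intro S hS
      rw [hCν]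
      apply natAbs_sum _ _ hS
      intro j _
      have h3 : (l * τ * P * p j).natAbs = (l.natAbs * τ.natAbs) * P * (p j).natAbs := by
        rw [Int.natAbs_mul, Int.natAbs_mul, Int.natAbs_mul, Int.natAbs_natCast]
      rw [h3]
      apply Nat.mul_le_mul_right
      apply Nat.mul_le_mul_right
      exact Nat.mul_le_mul (by omega) (by omega)) (by
      intro S hS _
      have h3 := hall ⟨S, hS⟩
      have h4 : s + l * b' + ∑ j ∈ S, l * τ * P * q j = s + l * (b' + τ * ((P : ℤ) * ∑ l ∈ S, q l)) := by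
        rw [← mul_sum]
        ring
      rw [h4]
      exact hgood _ h3)
    rw [← hv, ← hM] at h2
    rw [hX]
    refine le_trans ?_ h2
    have h4 : v - 2 * (M * (v / (2 * M) - ε * x / 4 + Cν)) = M * (ε * x / 2 - 2 * Cν) := by
      field_simp
      ring
    rw [h4]
    have h5 : ε * x / 4 ≤ ε * x / 2 - 2 * Cν := by linarith
    have h6 : 0 ≤ ε * x / 2 - 2 * Cν := by linarith
    calc ε * x / 4 ≤ 1 * (ε * x / 2 - 2 * Cν) := by rw [one_mul]; exact h5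
      _ ≤ M * (ε * x / 2 - 2 * Cν) := mul_le_mul_of_nonneg_right hM1 h6
  -- the upper bound
  have hup : ∀ τ ∈ Icc (1 : ℤ) N, ∀ a' ∈ Icc (1 - (U * C : ℕ) : ℤ) (D + (U * C : ℕ)),
      ∑ l ∈ Icc (1 : ℤ) U, |X a' (l * τ)| ≤ ε' * x * U := by
    intro τ hτ a' ha'
    rw [mem_Icc] at hτ ha'
    obtain ⟨t, rfl⟩ : ∃ t : ℕ, τ = t := ⟨τ.toNat, by omega⟩
    have ht1 : 1 ≤ t := by omega
    have htN : t ∈ Icc 1 N := by rw [mem_Icc]; omega
    have hKt := hKU t htN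
    have h2 := hKf t ht1 U x hKt (by omega) (by omega) (b i₀ * a' + c i₀) (by
      have h3 : |a'| ≤ (R + 1) * x := by
        have h4 : (D : ℤ) ≤ R * x := by exact_mod_cast hDx
        have h5 : ((U * C : ℕ) : ℤ) ≤ x := by exact_mod_cast (by omega : U * C ≤ x)
        have h6 : (0 : ℤ) ≤ D := Int.natCast_nonneg _
        have h7 : (0 : ℤ) ≤ ((U * C : ℕ) : ℤ) := Int.natCast_nonneg _
        rw [abs_le]
        constructor <;> nlinarith
      refine (abs_add_le _ _).trans ?_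
      rw [abs_mul]
      push_cast
      have h8 := mul_le_mul_of_nonneg_left h3 (abs_nonneg (b i₀))
      have h9 := hc i₀
      nlinarith) (fun n => (if W n then (1 : ℝ) else 0) *
      ∏ j ∈ range (m + 1), gr j (a (r j) * n + b (r j) * a')) (by
        intro n
        rw [abs_mul]
        have h3 : |∏ j ∈ range (m + 1), gr j (a (r j) * n + b (r j) * a')| = 1 := by
          rcases pm_prod (range (m + 1)) (fun j => gr j (a (r j) * n + b (r j) * a'))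
            (fun _ _ => hgr _ _) with h | h <;> rw [h] <;> norm_num
        rw [h3, mul_one]
        split_ifs <;> norm_num)
    refine le_trans (le_of_eq ?_) (h2.trans (le_of_eq (by ring)))
    apply sum_congr rfl
    intro l _
    rw [hX]
    simp only
    congr 1
    apply sum_congr rfl
    intro n _
    rw [hg₀d]
    simp only
    congr 2
    ring
  -- the contradiction
  have hGex : ∀ l : ℤ, ∃ G : Finset ℤ, l ∈ Icc (1 : ℤ) U → G ⊆ Icc (1 : ℤ) D ∧ ε₂ / 4 * D ≤ G.card ∧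
      ∀ s ∈ G, ∃ b' τ : ℤ, |b'| ≤ C ∧ 1 ≤ τ ∧ τ ≤ N ∧
        ∀ S : {S : Finset ℕ // S ∈ (range (m + 1)).powerset},
          s + l * (b' + τ * ((P : ℤ) * ∑ l ∈ S.1, q l)) ∈ B := by
    intro l
    by_cases hl : l ∈ Icc (1 : ℤ) U
    · obtain ⟨G, h1, h2, h3⟩ := hD₀ D (by omega) B hBI hfib.le l hl
      exact ⟨G, fun _ => ⟨h1, h2, h3⟩⟩
    · exact ⟨∅, fun h => absurd h hl⟩
  choose G hGs using hGex
  have hfin := final_step D U C N X (ε * x / 4) (ε' * x) (ε₂ / 4) (by positivity) G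
    (fun l hl => (hGs l hl).1) (fun l hl => (hGs l hl).2.1) (by
      intro l hl s hs
      obtain ⟨b', τ, h1, h2, h3, h4⟩ := (hGs l hl).2.2 s hs
      exact ⟨b', τ, h1, h2, h3, hlow s l b' τ hl h2 h3 h4⟩) hup
  have hD2 : (((D + 2 * (U * C) : ℕ)) : ℝ) ≤ 2 * D := by
    have : D + 2 * (U * C) ≤ 2 * D := by omega
    exact_mod_cast this
  have h1 : (((2 * C + 1) * N : ℕ) : ℝ) * ((((D + 2 * (U * C) : ℕ)) : ℝ) * (ε' * x * U)) ≤
      Pc * (2 * D * (ε' * x * U)) := by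
    apply mul_le_mul
    · rw [hPc]
      linarith
    · exact mul_le_mul_of_nonneg_right hD2 (by positivity)
    · positivity
    · exact hPc0.le
  have h2 : Pc * (2 * D * (ε' * x * U)) = ε₂ * ε / 32 * (D * x * U) := by
    rw [hε'd]
    field_simp
    norm_num
  have h3 : (U : ℝ) * (ε₂ / 4 * D * (ε * x / 4)) = ε₂ * ε / 16 * (D * x * U) := by ring
  have h4 : 0 < ε₂ * ε * (D * x * U) := by positivity
  rw [h3] at hfin
  rw [h2] at h1
  linarith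

end Pool.Agent.V5helper49.BW
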