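import Mathlib
import Pool.Agent.TH823.MRS.Circ3
import Pool.Agent.TH823.MRS.Fun

/-! Two point correlations of the Liouville function with arbitrary weights, for forms
`a n + b u + c` on the integers. -/

set_option autoImplicit false

namespace Pool.Agent.V5helper49.BW

open Finset
open Pool.Agent.H373R2.T7 (exI energy)

/-- the Liouville function on the natural numbers as a function with values in `ℂ` -/
noncomputable def ll (n : ℕ) : ℂ := ((Pool.Agent.H376R2.MR.lam n : ℤ) : ℂ)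

lemma ll_norm (n : ℕ) : ‖ll n‖ ≤ 1 := by
  unfold ll Pool.Agent.H376R2.MR.lam
  push_cast
  rw [norm_pow, norm_neg, norm_one, one_pow]

/-- energy of a progression -/
lemma energy_b (U : ℕ) (b : ℤ) (hb : b ≠ 0) :
    energy 1 U (fun m => b * (m : ℤ)) ≤ U := by
  unfold energy
  have h1 : (((Fintype.piFinset fun _ : Fin 1 => Icc 1 U) ×ˢ
      (Fintype.piFinset fun _ : Fin 1 => Icc 1 U)).filter
      (fun q => ∑ i, (b * ((q.1 i : ℕ) : ℤ)) = ∑ i, (b * ((q.2 i : ℕ) : ℤ)))).card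
      ≤ (Icc 1 U).card := by
    refine Finset.card_le_card_of_injOn (fun q => q.1 0) ?_ ?_
    · intro q hq
      simp only [coe_filter, mem_product, Fintype.mem_piFinset, Set.mem_ofPred_eq] at hq
      exact_mod_cast hq.1.1 0
    · intro q hq q' hq' h
      simp only [coe_filter, mem_product, Fintype.mem_piFinset, Set.mem_ofPred_eq,
        Fin.sum_univ_one] at hq hq'
      have e1 := mul_left_cancel₀ hb hq.2
      have e2 := mul_left_cancel₀ hb hq'.2
      have e3 : q.1 0 = q.2 0 := by exact_mod_cast e1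
      have e4 : q'.1 0 = q'.2 0 := by exact_mod_cast e2
      simp only at h
      refine Prod.ext ?_ ?_
      · funext i
        rw [Fin.fin_one_eq_zero i]; exact h
      · funext i
        rw [Fin.fin_one_eq_zero i, ← e3, ← e4]; exact h
  rwa [Nat.card_Icc, Nat.add_sub_cancel] at h1

lemma sum_cast (U : ℕ) (f : ℤ → ℝ) :
    ∑ u ∈ Icc (1 : ℤ) U, f u = ∑ m ∈ Icc 1 U, f (m : ℤ) := by
  symm
  refine Finset.sum_bij (fun n _ => (n : ℤ)) ?_ ?_ ?_ ?_
  · intro n hn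
    rw [mem_Icc] at hn ⊢
    omega
  · intro n _ n' _ h
    exact_mod_cast h
  · intro a ha
    rw [mem_Icc] at ha
    refine ⟨a.toNat, ?_, ?_⟩
    · rw [mem_Icc]; omega
    · omega
  · intro n _
    rfl

/-- a sum over the solutions of `a n + c = k` -/
lemma one_term (a c k : ℤ) (ha : a ≠ 0) (x : ℕ) (θ : ℤ → ℂ) (hθ : ∀ n, ‖θ n‖ ≤ 1) :
    ‖∑ n ∈ Icc (1 : ℤ) x, (if a * n + c = k then θ n else 0)‖ ≤ 1 := by
  by_cases h : ∃ n₀ ∈ Icc (1 : ℤ) x, a * n₀ + c = k
  · obtain ⟨n₀, hn₀, h0⟩ := h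
    rw [Finset.sum_eq_single_of_mem n₀ hn₀]
    · rw [if_pos h0]; exact hθ _
    · intro n _ hne
      rw [if_neg]
      intro h1
      apply hne
      have : a * n = a * n₀ := by linarith
      exact mul_left_cancel₀ ha this
  · rw [Finset.sum_eq_zero]
    · simp
    · intro n hn
      rw [if_neg]
      intro h1
      exact h ⟨n, hn, h1⟩

lemma main_sign (a b : ℤ) (ha : a ≠ 0) (hb : b ≠ 0) (R C : ℕ) (ε : ℝ) (hε : 0 < ε) :
    ∃ K : ℕ, ∀ U x : ℕ, K ≤ U → K ≤ x → U ≤ R * x → ∀ c : ℤ, |c| ≤ C * x →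
      ∀ θ : ℤ → ℂ, (∀ n, ‖θ n‖ ≤ 1) →
      ∑ u ∈ Icc 1 U, ‖∑ n ∈ Icc (1 : ℤ) x, θ n * exI ll (a * n + b * (u : ℤ) + c)‖ ≤
        ε * (U * x) := by
  set D : ℕ := a.natAbs + C + b.natAbs * R + 1 with hD
  have hD0 : (0 : ℝ) < D := by
    have : 0 < D := by omega
    exact_mod_cast this
  obtain ⟨H₀, N₀, h⟩ := Pool.Agent.TH823.MRS.l1_short ll ll_norm
    Pool.Agent.TH823.MRS.expo_lam 1 (b.natAbs : ℝ) (Nat.cast_nonneg _) (ε / D) (by positivity)
  refine ⟨H₀ + N₀ + 1, fun U x hU hx hUx c hc θ hθ => ?_⟩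
  have hbpos : 1 ≤ b.natAbs := Int.natAbs_pos.mpr hb
  have hN1 : N₀ ≤ D * x := by
    have : 1 * x ≤ D * x := Nat.mul_le_mul_right _ (by omega)
    omega
  have hH1 : H₀ ≤ b.natAbs * U := by
    have : 1 * U ≤ b.natAbs * U := Nat.mul_le_mul_right _ hbpos
    omega
  have hH2 : b.natAbs * U ≤ D * x := by
    calc b.natAbs * U ≤ b.natAbs * (R * x) := Nat.mul_le_mul_left _ hUx
      _ = (b.natAbs * R) * x := by ring
      _ ≤ D * x := Nat.mul_le_mul_right _ (by omega)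
  have h1 := h (D * x) hN1 (b.natAbs * U) hH1 hH2 U (fun m => b * (m : ℤ)) (by
      intro m hm
      rw [mem_Icc] at hm
      rw [abs_mul, Nat.abs_cast]
      push_cast
      have : (m : ℤ) ≤ U := by exact_mod_cast hm.2
      exact mul_le_mul_of_nonneg_left this (abs_nonneg _)) (by
      have h2 : ((energy 1 U (fun m => b * (m : ℤ)) : ℕ) : ℝ) ≤ U := by
        exact_mod_cast energy_b U b hb
      rw [Nat.cast_mul]
      have h3 : (0 : ℝ) ≤ (b.natAbs : ℝ) * U := by positivity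
      calc _ ≤ (U : ℝ) * ((b.natAbs : ℝ) * U) := mul_le_mul_of_nonneg_right h2 h3
        _ = (b.natAbs : ℝ) * (U : ℝ) ^ (2 * 1) := by ring)
    (fun k => ∑ n ∈ Icc (1 : ℤ) x, (if a * n + c = k then θ n else 0))
    (fun k => one_term a c k ha x θ hθ)
  have h2 : ∀ u ∈ Icc 1 U,
      ‖∑ n ∈ Icc (1 : ℤ) x, θ n * exI ll (a * n + b * (u : ℤ) + c)‖ =
      ‖∑ k ∈ Ioc (-((b.natAbs * U : ℕ) : ℤ)) ((D * x : ℕ) : ℤ),
        (∑ n ∈ Icc (1 : ℤ) x, (if a * n + c = k then θ n else 0)) *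
          exI ll (k + b * (u : ℤ))‖ := by
    intro u hu
    rw [mem_Icc] at hu
    congr 1
    simp only [Finset.sum_mul]
    rw [Finset.sum_comm]
    refine Finset.sum_congr rfl fun n hn => ?_
    rw [mem_Icc] at hn
    have hs : ∀ k ∈ Ioc (-((b.natAbs * U : ℕ) : ℤ)) ((D * x : ℕ) : ℤ),
        (if a * n + c = k then θ n else 0) * exI ll (k + b * (u : ℤ)) =
        if a * n + c = k then θ n * exI ll (a * n + b * (u : ℤ) + c) else 0 := by
      intro k _
      split_ifs with h3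
      · rw [← h3]; congr 2; ring
      · rw [zero_mul]
    rw [Finset.sum_congr rfl hs, Finset.sum_ite_eq]
    split_ifs with h3
    · rfl
    · rw [mem_Ioc] at h3
      have hbu : b * (u : ℤ) ≤ ((b.natAbs * U : ℕ) : ℤ) := by
        push_cast
        calc b * (u : ℤ) ≤ |b| * u := mul_le_mul_of_nonneg_right (le_abs_self b) (by positivity)
          _ ≤ |b| * U := mul_le_mul_of_nonneg_left (by exact_mod_cast hu.2) (abs_nonneg _)
      have han : a * n + c ≤ ((D * x : ℕ) : ℤ) := by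
        have e1 : a * n ≤ |a| * x := by
          calc a * n ≤ |a| * n := mul_le_mul_of_nonneg_right (le_abs_self a) (by omega)
            _ ≤ |a| * x := mul_le_mul_of_nonneg_left hn.2 (abs_nonneg _)
        have e2 : c ≤ C * x := (le_abs_self c).trans hc
        have e3 : (0 : ℤ) ≤ (|b| * R + 1) * x := by positivity
        rw [hD]
        push_cast
        nlinarith
      have h4 : a * n + c ≤ -((b.natAbs * U : ℕ) : ℤ) := by
        by_contra h5
        exact h3 ⟨by omega, han⟩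
      have h5 : ¬ (1 : ℤ) ≤ a * n + b * (u : ℤ) + c := by omega
      unfold exI
      rw [if_neg h5, mul_zero]
  rw [Finset.sum_congr rfl h2]
  refine h1.trans (le_of_eq ?_)
  push_cast
  field_simp

/-- the Liouville function of the absolute value, and `1` at `0` -/
noncomputable def lz (m : ℤ) : ℝ := (-1 : ℝ) ^ ArithmeticFunction.cardFactors m.natAbs

lemma lz_pm (m : ℤ) : lz m = 1 ∨ lz m = -1 := neg_one_pow_eq_or _ _

lemma lz_split (k : ℤ) : ((lz k : ℝ) : ℂ) = exI ll k + exI ll (-k) + (if k = 0 then 1 else 0) := by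
  unfold lz exI ll Pool.Agent.H376R2.MR.lam
  rcases lt_trichotomy k 0 with h | h | h
  · rw [if_neg (by omega), if_pos (by omega), if_neg (by omega)]
    have : (-k).toNat = k.natAbs := by omega
    rw [this]
    push_cast
    ring
  · subst h
    simp
  · rw [if_pos (by omega), if_neg (by omega), if_neg (by omega)]
    have : k.toNat = k.natAbs := by omega
    rw [this]
    push_cast
    ring

/-- two forms, one function arbitrary -/
theorem mrp (a b : ℤ) (ha : a ≠ 0) (hb : b ≠ 0) (C : ℕ) (ε : ℝ) (hε : 0 < ε) :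
    ∃ K : ℕ, ∀ U x : ℕ, K ≤ U → K ≤ x → U ≤ x → ∀ c : ℤ, |c| ≤ C * x → ∀ θ : ℤ → ℝ,
      (∀ n, |θ n| ≤ 1) →
      ∑ u ∈ Icc (1 : ℤ) U, |∑ n ∈ Icc (1 : ℤ) x, θ n * lz (a * n + b * u + c)| ≤ ε * (U * x) := by
  obtain ⟨K1, h1⟩ := main_sign a b ha hb 1 C (ε / 3) (by positivity)
  obtain ⟨K2, h2⟩ := main_sign (-a) (-b) (neg_ne_zero.mpr ha) (neg_ne_zero.mpr hb) 1 C (ε / 3)
    (by positivity)
  obtain ⟨K3, hK3⟩ := exists_nat_ge (3 / ε)
  refine ⟨K1 + K2 + K3 + 1, fun U x hU hx hUx c hc θ hθ => ?_⟩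
  have hU0 : (0 : ℝ) < U := by exact_mod_cast (by omega : 0 < U)
  have hx0 : (0 : ℝ) < x := by exact_mod_cast (by omega : 0 < x)
  have hθ' : ∀ n, ‖((θ n : ℝ) : ℂ)‖ ≤ 1 := fun n => by
    rw [Complex.norm_real, Real.norm_eq_abs]
    exact hθ n
  have e1 := h1 U x (by omega) (by omega) (by omega) c hc (fun n => ((θ n : ℝ) : ℂ)) hθ'
  have e2 := h2 U x (by omega) (by omega) (by omega) (-c) (by rwa [abs_neg]) (fun n => ((θ n : ℝ) : ℂ)) hθ'
  have e3 : ∑ u ∈ Icc 1 U, ‖∑ n ∈ Icc (1 : ℤ) x,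
      (if a * n + (b * (u : ℤ) + c) = 0 then ((θ n : ℝ) : ℂ) else 0)‖ ≤ U := by
    calc ∑ u ∈ Icc 1 U, ‖∑ n ∈ Icc (1 : ℤ) x,
          (if a * n + (b * (u : ℤ) + c) = 0 then ((θ n : ℝ) : ℂ) else 0)‖
        ≤ ∑ u ∈ Icc 1 U, (1 : ℝ) := sum_le_sum fun u _ =>
          one_term a _ 0 ha x (fun n => ((θ n : ℝ) : ℂ)) hθ'
      _ = U := by simp
  rw [sum_cast]
  have e4 : ∀ m ∈ Icc 1 U, |∑ n ∈ Icc (1 : ℤ) x, θ n * lz (a * n + b * (m : ℤ) + c)| ≤
      ‖∑ n ∈ Icc (1 : ℤ) x, ((θ n : ℝ) : ℂ) * exI ll (a * n + b * (m : ℤ) + c)‖ +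
        ‖∑ n ∈ Icc (1 : ℤ) x, ((θ n : ℝ) : ℂ) * exI ll (-a * n + -b * (m : ℤ) + -c)‖ +
        ‖∑ n ∈ Icc (1 : ℤ) x, (if a * n + (b * (m : ℤ) + c) = 0 then ((θ n : ℝ) : ℂ) else 0)‖ := by
    intro m _
    rw [← Real.norm_eq_abs, ← Complex.norm_real]
    refine le_trans (le_of_eq ?_) (norm_add₃_le)
    congr 1
    rw [← sum_add_distrib, ← sum_add_distrib, Complex.ofReal_sum]
    refine sum_congr rfl fun n _ => ?_
    rw [Complex.ofReal_mul, lz_split, mul_add, mul_add]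
    congr 2
    · congr 2
      ring
    · rw [mul_ite, mul_one, mul_zero]
      congr 1
      rw [add_assoc]
  refine (sum_le_sum e4).trans ?_
  rw [sum_add_distrib, sum_add_distrib]
  have h6 : (U : ℝ) ≤ ε / 3 * (U * x) := by
    have h7 : 3 / ε ≤ x := hK3.trans (by exact_mod_cast (by omega : K3 ≤ x))
    rw [div_le_iff₀ hε] at h7
    nlinarith
  calc _ ≤ ε / 3 * (U * x) + ε / 3 * (U * x) + ε / 3 * (U * x) :=
        add_le_add (add_le_add e1 e2) (e3.trans h6)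
    _ = ε * (U * x) := by ring

end Pool.Agent.V5helper49.BW
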